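import Pool.Agent.Work.MP_b51559_nt.DN.Defs

set_option autoImplicit false

/-!
# Block DN: the statements

Every docstring is the complete proof. Numbers: `pr` has 15 elements (decide), `QQ =
614889782588491410`, `tau = 4.24180..`.
-/

namespace MPb51559.DN

open Finset
open scoped Classical

/-- CRT, sums of products of periodic functions. Induction on `s`. Step: for coprime `a, b > 0`, `F`
with period `a`, `G` with period `b`: Σ_{n < ab} F n G n = (Σ_{n < a} F n)(Σ_{n < b} G n), because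
n ↦ (n % a, n % b) is a bijection of range (ab) onto range a × range b (injective by
Nat.ModEq / Nat.chineseRemainder, same cardinality) and F n = F (n % a). A product over s of functions
f p of period p has the period Π p (a function of period p has every multiple of p as period). -/
def D_CRT : Prop := ∀ (s : Finset ℕ), (∀ p ∈ s, p.Prime) → ∀ f : ℕ → ℕ → ℝ,
  (∀ p ∈ s, ∀ n, f p (n + p) = f p n) →
  ∑ n ∈ range (∏ p ∈ s, p), ∏ p ∈ s, f p n = ∏ p ∈ s, ∑ n ∈ range p, f p n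

/-- PER, the mean of a nonnegative periodic function over [1, N]. Let S = Σ_{n < q} F n,
N = k q + r, r < q. The sum over [1, kq] is k S, the rest is between 0 and S (r < q consecutive
terms), and N/q S = k S + (r/q) S with 0 ≤ r/q S ≤ S. -/
def D_PER : Prop := ∀ (q : ℕ), 0 < q → ∀ F : ℕ → ℝ, (∀ n, 0 ≤ F n) → (∀ n, F (n + q) = F n) →
  ∀ N : ℕ, |∑ n ∈ Icc 1 N, F n - (N : ℝ) / q * ∑ n ∈ range q, F n| ≤ ∑ n ∈ range q, F n

/-- WB, bounds for the weight. Every factor wl p h is ≥ 0 (p ≥ 2) and ≤ p/(p-1)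
(p (p-2)/(p-1)² ≤ 1 ≤ p/(p-1)), and Π_{p ≤ 47} p/(p-1) = 7.2098.. ≤ 8 (norm_num). -/
def D_WB : Prop := ∀ h : ℕ, 0 ≤ ww h ∧ ww h ≤ 8

/-- CB, the number of integers up to N prime to QQ. From CRT and PER with F n = Π_p (if p ∣ n then 0
else 1) (the indicator of n coprime to QQ): Σ_{n < p} = p - 1, so S = Π (p - 1) = dl QQ ≤ QQ. -/
def D_CB : Prop := ∀ N : ℕ, |((BB N).card : ℝ) - dl * N| ≤ QQ

/-- C2, pairs. The indicator of (n coprime to QQ and n + h coprime to QQ) is the product over p of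
(if p ∣ n ∨ p ∣ n + h then 0 else 1), of period p, with Σ_{n < p} = p - 1 if p ∣ h and p - 2 if not
(for p = 2, h odd: 0). (p-1)/p = (1-1/p)² p/(p-1) and (p-2)/p = (1-1/p)² p (p-2)/(p-1)², so
S = Π Σ_{n<p} = QQ dl² ww h, and S ≤ QQ. PER gives count ≤ (N/QQ) S + S. -/
def D_C2 : Prop := ∀ h N : ℕ,
  (((BB N).filter (fun x => (x + h).Coprime QQ)).card : ℝ) ≤ dl ^ 2 * ww h * N + QQ

/-- PAIR. Pairs (x, y) with y ≤ x: at most M² (x ≤ M). Pairs with x < y: h = y - x is in PP P N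
(1 ≤ h ≤ N, h ∈ P by RR) and x ∈ BB M, x + h coprime to QQ: by C2 at most
Σ_{h ∈ PP P N} (dl² ww h M + QQ) = dl² M (N WW P N) + QQ #(PP P N) ≤ dl² M N WW + QQ N. (N = 0
is trivial.) USES: C2. -/
def D_PAIR : Prop := ∀ (P : Set ℕ) (M N : ℕ),
  (((BB M ×ˢ BB N).filter (fun z => RR P z.1 z.2)).card : ℝ) ≤
    dl ^ 2 * M * N * WW P N + QQ * N + (M : ℝ) ^ 2

/-- PRO, the same as a probability. WLOG η ≤ 1. 0 ≤ WW ≤ 8 (WB), 0 < dl ≤ 1. With θ = η/40:
for M ≥ QQ/(θ dl) both cardinalities are ≥ (1-θ) dl M resp. (1-θ) dl N (CB), and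
(WW + η)(1-θ)² ≥ (WW + η)(1 - 2θ) ≥ WW + η - 18 θ ≥ WW + η/2. It remains QQ N + M² ≤ (η/2) dl² M N:
QQ ≤ (η/4) dl² M for M ≥ M0 and M ≤ (η/4) dl² N for N ≥ C M. USES: PAIR, CB, WB. -/
def D_PRO : Prop := ∀ η : ℝ, 0 < η → ∃ M0 C : ℕ, ∀ (P : Set ℕ) (M N : ℕ), M0 ≤ M → C * M ≤ N →
  0 < (BB M).card ∧ 0 < (BB N).card ∧
  (((BB M ×ˢ BB N).filter (fun z => RR P z.1 z.2)).card : ℝ) ≤
    (WW P N + η) * ((BB M).card * (BB N).card)

/-- TUR, Turán. Let G be the graph on Fin r with i ~ j iff i ≠ j and not R (min i j) (max i j). A clique of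
size 49 would contradict the hypothesis, so by Mathlib's SimpleGraph.CliqueFree.card_edgeFinset_le
(r there is 48) it has at most 47 r²/96 edges [(r² - t²) 47/96 + t (t-1)/2 ≤ 47 r²/96 for
0 ≤ t < 48, as t(t-1)/2 ≤ 47 t²/96 iff t ≤ 48], and the pairs i < j number r(r-1)/2:
r(r-1)/2 - 47 r²/96 = r²/96 - r/2. -/
def D_TUR : Prop := ∀ (r : ℕ) (R : Fin r → Fin r → Prop),
  (∀ s : Finset (Fin r), s.card = 49 → ∃ i ∈ s, ∃ j ∈ s, i < j ∧ R i j) →
  (r : ℝ) ^ 2 / 96 - r / 2 ≤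
    ((univ.filter (fun z : Fin r × Fin r => z.1 < z.2 ∧ R z.1 z.2)).card : ℝ)

/-- AVG, averaging over the product of the sets S j (Fintype.piFinset S). Sum the hypothesis over
all x in piFinset S and exchange: Σ_x #{(i,j)} = Σ_{(i,j), i<j} #{x : E i j (x i) (x j)}, and for
i ≠ j the last number is #{(a,b) ∈ S i × S j : E} Π_{l ≠ i,j} #S l. Divide by Π #S l > 0. -/
def D_AVG : Prop := ∀ (r : ℕ) (S : Fin r → Finset ℕ), (∀ j, 0 < (S j).card) →
  ∀ (E : ℕ → ℕ → Prop) (T : ℝ),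
  (∀ x : Fin r → ℕ, (∀ j, x j ∈ S j) →
    T ≤ ((univ.filter (fun z : Fin r × Fin r => z.1 < z.2 ∧ E (x z.1) (x z.2))).card : ℝ)) →
  T ≤ ∑ z ∈ univ.filter (fun z : Fin r × Fin r => z.1 < z.2),
    (((S z.1 ×ˢ S z.2).filter (fun y => E y.1 y.2)).card : ℝ) / ((S z.1).card * (S z.2).card)

/-- SEP, the main lemma (random integers at separated scales). PRO with η/2 gives M0, C; take
r > 2/η + 1, C ≥ 1. Suppose WW P (N j) < 1/48 - η for all j. Put S j = BB (N j), E = RR P,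
T = r²/96 - r/2. For x j ∈ S j the hypothesis of AVG is TUR with R i j = RR P (x i) (x j): for a set s of
49 indices either x i = x j for some i < j in s, or the image of s under x is a subset of BB H with 49
elements and DefD gives a < b in it with b - a ∈ P, which is RR for the two indices (in either
order, RR is symmetric). So T ≤ Σ_{i<j} (WW P (N j) + η/2) ≤ r(r-1)/2 (1/48 - η/2) (PRO for M = N i,
N = N j), hence r(r-1)η/4 ≤ r/2, contradiction. USES: PRO, TUR, AVG. -/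
def D_SEP : Prop := ∀ η : ℝ, 0 < η → ∃ r M0 C : ℕ, ∀ (H : ℕ) (P : Set ℕ), DefD P H →
  ∀ N : Fin r → ℕ, (∀ j, M0 ≤ N j ∧ N j ≤ H) → (∀ i j, i < j → C * N i ≤ N j) →
  ∃ j, 1 / 48 - η ≤ WW P (N j)

/-- TRU, truncation: ww h ≤ t + max (ww h - t) 0 for h ∈ PP P N, and PP P N ⊆ Icc 1 N. -/
def D_TRU : Prop := ∀ (P : Set ℕ) (N : ℕ), (N : ℝ) * WW P N ≤
  tau * (PP P N).card + ∑ h ∈ Icc 1 N, max (ww h - tau) 0

/-- G210: for 210 ∣ h every factor of tau is ≤ the factor of ww h (equal for p ≤ 7; for p > 7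
p (p-2)/(p-1)² ≤ p/(p-1)). -/
def D_G210 : Prop := ∀ h : ℕ, 210 ∣ h → tau ≤ ww h

/-- TAU: numerical value, 4.2418 < tau < 4.2419 (norm_num after pr = {2,3,5,..,47} by decide/rfl;
exact rational 4.24180659..). -/
def D_TAU : Prop := 4.2418 < tau ∧ tau < 4.2419

/-- RAN, Rankin: max (t - tau) 0 ≤ cR t^36 for t ≥ 0. cR t^36 ≥ 0. For the other one write
t = (36/35) tau u, u ≥ 0: cR t^36 = tau u^36/35, and tau ((36/35) u - 1) ≤ tau u^36/35 iff
36 u - 35 ≤ u^36: Bernoulli (one_add_mul_le_pow with u - 1 ≥ -2). USES: TAU (tau > 0). -/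
def D_RAN : Prop := ∀ t : ℝ, 0 ≤ t → max (t - tau) 0 ≤ cR * t ^ 36

/-- M1: the mean of ww - tau over the multiples of 210 is 1/48 - tau/210. By CRT with
f p n = (if p ∣ n then wl p n else 0) for p ≤ 7 and wl p n for p > 7:
Σ_{n<p} f p n = p/(p-1) for p ≤ 7, and p/(p-1) + (p-1) p (p-2)/(p-1)² = p for p > 7. So
Σ_{n < QQ, 210 ∣ n} ww n = Π_{p≤7} p/(p-1) Π_{p>7} p = QQ/48 (1·2·4·6 = 48), and the number of the
multiples of 210 below QQ is QQ/210. USES: CRT. -/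
def D_M1 : Prop := ∑ n ∈ (range QQ).filter (fun n => 210 ∣ n), (ww n - tau) =
  QQ * (1 / 48 - tau / 210)

/-- the mean of the 36th power of the local weight, times p -/
noncomputable def mR (p : ℕ) : ℝ :=
  ((p : ℝ) / (p - 1)) ^ 36 + (p - 1) * ((p : ℝ) * (p - 2) / (p - 1) ^ 2) ^ 36

/-- M2: the sum of ww^36 over n < QQ not divisible by 210 is the sum over all n minus the sum over the
multiples of 210, both by CRT: f p n = wl p n ^ 36, and f p n = (if p ∣ n then wl p n ^ 36 else 0)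
for p ≤ 7. USES: CRT. -/
def D_M2 : Prop := ∑ n ∈ (range QQ).filter (fun n => ¬ 210 ∣ n), ww n ^ 36 =
  (∏ p ∈ pr, mR p) - (∏ p ∈ pr.filter (fun p => p ≤ 7), ((p : ℝ) / (p - 1)) ^ 36) *
    ∏ p ∈ pr.filter (fun p => ¬ p ≤ 7), mR p

/-- M3, numerical: the right side of M2 times cR is at most 8.2 10^(-5) QQ (true value about
8.13 10^(-5) QQ). All quantities are explicit rationals (use tau ≥ 4.2418 or the exact value of tau);
norm_num. If it is slow: (∏_{p ≤ 7} mR p - ∏_{p ≤ 7} (p/(p-1))^36) ∏_{p>7} mR p, bound every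
factor by a rational with 8 digits first. -/
def D_M3 : Prop := cR * ((∏ p ∈ pr, mR p) -
  (∏ p ∈ pr.filter (fun p => p ≤ 7), ((p : ℝ) / (p - 1)) ^ 36) *
    ∏ p ∈ pr.filter (fun p => ¬ p ≤ 7), mR p) ≤ 82 / 1000000 * QQ

/-- MEAN: from G210, RAN, M1, M2, M3: Σ_{n<QQ} max (ww n - tau) 0 ≤ QQ (1/48 - tau/210 + 8.2e-5)
(on the multiples of 210 max = ww - tau by G210, on the others RAN with t = ww n ≥ 0), then PER
with F = max (ww n - tau) 0 of period QQ and S ≤ 8 QQ. USES: PER, WB, G210, TAU, RAN, M1, M2,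
M3. -/
def D_MEAN : Prop := ∀ N : ℕ, ∑ h ∈ Icc 1 N, max (ww h - tau) 0 ≤
  N * (1 / 48 - tau / 210 + 82 / 1000000) + 8 * QQ

/-- DEN: a large weighted mean gives a large density. By TRU and MEAN
tau #PP ≥ N (1/48 - 10^(-6)) - N (1/48 - tau/210 + 8.2e-5) - 8 QQ = N (tau/210 - 8.3e-5) - 8 QQ,
so #PP ≥ N (1/210 - 8.3e-5/4.2418) - 8 QQ ≥ N · 0.0047423 - 8 QQ ≥ N · 10/2109 for N ≥ N0
(10/2109 = 0.00474158..; 8.3e-5/4.2418 = 1.957e-5). USES: TRU, MEAN, TAU. -/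
def D_DEN : Prop := ∃ N0 : ℕ, ∀ (P : Set ℕ) (N : ℕ), N0 ≤ N → 1 / 48 - 1 / 1000000 ≤ WW P N →
  10 * N ≤ 2109 * (PP P N).card

/-- KEY: SEP with η = 10^(-6) and DEN; chain condition with C ≥ 1 gives the condition for all i < j
(induction; enlarge C to max C 1). The N j with large WW is ≥ N0. USES: SEP, DEN. -/
def D_KEY : Prop := ∃ r N0 C : ℕ, ∀ (H : ℕ) (P : Set ℕ), DefD P H → ∀ N : ℕ → ℕ,
  (∀ j < r, N0 ≤ N j ∧ N j ≤ H) → (∀ j, j + 1 < r → C * N j ≤ N (j + 1)) →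
  ∃ j < r, 10 * N j ≤ 2109 * (PP P (N j)).card

/-- LOW, lower density of a fixed set. If false there are arbitrarily large N with 211 #PP P N < N;
choose N 0 ≥ N0 and N (j+1) ≥ C N j + N0 successively (r steps), H = N (r-1) (or the maximum);
KEY gives j with 10 N j ≤ 2109 #PP < 2110 #PP... contradiction. (r = 0 is impossible in
KEY, as the conclusion fails.) USES: KEY. -/
def D_LOW : Prop := ∀ P : Set ℕ, (∀ H, DefD P H) → ∃ N0 : ℕ, ∀ N ≥ N0, N ≤ 211 * (PP P N).card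

/-- COVER: a finite set S of integers >= 1 without a C-separated chain of length r is covered by at
most r intervals [t, C t]. Induction on r. r = 0: the empty chain exists, contradiction. r + 1: if S
is empty take T empty; else t0 = min S, S' = {t in S : C t0 ≤ t} has no chain of length r (a chain
N of S' of length r gives the chain t0, N 0, N 1, .. of length r + 1; for r = 0 the chain t0 alone is
a chain of length 1 of S), T = insert t0 T'. -/
def D_COVER : Prop := ∀ (r C : ℕ) (S : Finset ℕ),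
  (¬ ∃ N : ℕ → ℕ, (∀ j < r, N j ∈ S) ∧ ∀ j, j + 1 < r → C * N j ≤ N (j + 1)) →
  ∃ T : Finset ℕ, T.card ≤ r ∧ ∀ N ∈ S, ∃ t ∈ T, t ≤ N ∧ N ≤ C * t

/-- UNI, the uniform form. KEY gives r, N0, C; replace C by C1 = max C 1 (KEY holds for it too) and
take the constant max N0 C1. For H, P let S = the N in Icc N0 H (N ≥ 1) with 2109 #PP P N < 10 N; by
KEY it has no C1-separated chain of length r, COVER gives T. USES: KEY, COVER. -/
def D_UNI : Prop := ∃ C r : ℕ, ∀ (H : ℕ) (P : Set ℕ), DefD P H → ∃ T : Finset ℕ, T.card ≤ r ∧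
  ∀ N ≤ H, 10 * N ≤ 2109 * (PP P N).card ∨ N ≤ C ∨ ∃ t ∈ T, t ≤ N ∧ N ≤ C * t

/-- HAR, harmonic sums. 1/(n+1) ≤ log((n+1)/n) for n ≥ 1 and 1/(n+1) ≥ log((n+2)/(n+1)).
First: Σ_{n=t}^{Ct} 1/(n+1) ≤ 1 + log(C t) - log t (the term n = t is ≤ 1; for t = 0 the sum
is 1 or C * 0 = 0 gives the single term 1; C ≥ 1). Second: telescoping. -/
def D_HAR : Prop := (∀ C t : ℕ, 1 ≤ C → ∑ n ∈ Icc t (C * t), 1 / ((n : ℝ) + 1) ≤ 1 + Real.log C) ∧
  ∀ a b : ℕ, a ≤ b → Real.log (b + 2) - Real.log (a + 1) ≤ ∑ n ∈ Icc a b, 1 / ((n : ℝ) + 1)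

/-- ABEL: Σ_{h ∈ PP P H} 1/h ≥ Σ_{N=1}^{H} #PP P N/(N (N+1)): exchange the sums,
Σ_{N=h}^{H} 1/(N(N+1)) = 1/h - 1/(H+1) ≤ 1/h. -/
def D_ABEL : Prop := ∀ (P : Set ℕ) (H : ℕ),
  ∑ N ∈ Icc 1 H, ((PP P N).card : ℝ) / (N * (N + 1)) ≤ ∑ h ∈ PP P H, 1 / (h : ℝ)

/-- LOG, uniform logarithmic density. UNI gives C, r (C ≥ 1 without loss), T. By ABEL the sum is
≥ Σ_{N ∈ [C+1,H], N not in any [t, C t]} (10/2109)/(N+1) ≥ (10/2109)(Σ_{N=C+1}^{H} 1/(N+1) -
Σ_{t ∈ T} Σ_{N ∈ [t, Ct]} 1/(N+1)) ≥ (10/2109) (log(H+2) - log(C+2) - r (1 + log C)) by HAR, and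
this is ≥ (1/211) log H for H ≥ H0 (depending only on C, r), as 10/2109 > 1/211. USES: UNI, HAR, ABEL. -/
def D_LOG : Prop := ∃ H0 : ℕ, ∀ H ≥ H0, ∀ P : Set ℕ, DefD P H →
  Real.log H ≤ 211 * ∑ h ∈ PP P H, 1 / (h : ℝ)

end MPb51559.DN
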