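import Pool.Agent.Work.MP_b51559_nt.DN.Stmts

/-!
# Item C2: pairs of integers prime to QQ
-/

set_option autoImplicit false

namespace MPb51559.DN

open Finset
open scoped Classical

/-- the local indicator -/
noncomputable def C2_f (h p n : ℕ) : ℝ := if p ∣ n ∨ p ∣ n + h then 0 else 1

theorem C2_f_nonneg (h p n : ℕ) : 0 ≤ C2_f h p n := by
  unfold C2_f; split_ifs <;> norm_num

theorem C2_f_le (h p n : ℕ) : C2_f h p n ≤ 1 := by
  unfold C2_f; split_ifs <;> norm_num

theorem C2_f_per (h p n : ℕ) (q : ℕ) (hq : p ∣ q) : C2_f h p (n + q) = C2_f h p n := by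
  unfold C2_f
  have e1 : p ∣ n + q ↔ p ∣ n := (Nat.dvd_add_iff_left hq).symm
  have e2 : p ∣ n + q + h ↔ p ∣ n + h := by
    rw [add_right_comm]
    exact (Nat.dvd_add_iff_left hq).symm
  simp only [e1, e2]

theorem C2_prime {p : ℕ} (hp : p ∈ pr) : p.Prime := (mem_filter.1 hp).2

theorem C2_loc (h p : ℕ) (hp : p.Prime) :
    ∑ n ∈ range p, C2_f h p n = (p : ℝ) * ((1 - 1 / (p : ℝ)) ^ 2 * wl p h) := by
  have hp0 : 0 < p := hp.pos
  have hp2 : 2 ≤ p := hp.two_le
  have hpR : (2 : ℝ) ≤ p := by exact_mod_cast hp2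
  have hp1 : (p : ℝ) - 1 ≠ 0 := by
    have : (0 : ℝ) < p - 1 := by linarith
    exact this.ne'
  have hpz : (p : ℝ) ≠ 0 := by
    have : (0 : ℝ) < p := by linarith
    exact this.ne'
  have e1 : ∀ n, C2_f h p n = 1 - (if p ∣ n ∨ p ∣ n + h then (1 : ℝ) else 0) := by
    intro n; unfold C2_f; split_ifs <;> norm_num
  have e2 : ∑ n ∈ range p, C2_f h p n =
      p - (((range p).filter (fun n => p ∣ n ∨ p ∣ n + h)).card : ℝ) := by
    simp_rw [e1]
    rw [sum_sub_distrib, sum_const, card_range, nsmul_eq_mul, mul_one, sum_boole]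
  rw [e2]
  by_cases hd : p ∣ h
  · have e3 : (range p).filter (fun n => p ∣ n ∨ p ∣ n + h) = {0} := by
      ext n
      simp only [mem_filter, mem_range, mem_singleton]
      constructor
      · rintro ⟨h1, h2⟩
        have h3 : p ∣ n := by
          rcases h2 with h2 | h2
          · exact h2
          · exact (Nat.dvd_add_iff_left hd).2 h2
        exact Nat.eq_zero_of_dvd_of_lt h3 h1
      · rintro rfl
        exact ⟨hp0, Or.inl (dvd_zero p)⟩
    rw [e3, card_singleton, wl, if_pos hd]
    field_simp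
    push_cast
    ring
  · have hm : 0 < h % p := Nat.pos_of_ne_zero fun e => hd (Nat.dvd_of_mod_eq_zero e)
    have hm' : h % p < p := Nat.mod_lt _ hp0
    have e3 : (range p).filter (fun n => p ∣ n ∨ p ∣ n + h) = {0, p - h % p} := by
      ext n
      simp only [mem_filter, mem_range, mem_insert, mem_singleton]
      constructor
      · rintro ⟨h1, h2⟩
        rcases h2 with h2 | h2
        · exact Or.inl (Nat.eq_zero_of_dvd_of_lt h2 h1)
        · right
          have h3 : p ∣ n + h % p := by
            have h4 : n + h = n + h % p + p * (h / p) := by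
              rw [add_assoc, Nat.mod_add_div]
            rw [h4] at h2
            exact (Nat.dvd_add_iff_left (dvd_mul_right p _)).2 h2
          obtain ⟨c, hc⟩ := h3
          have h5 : c = 1 := by
            have h6 : 0 < c := by
              rcases Nat.eq_zero_or_pos c with e | e
              · subst e; omega
              · exact e
            have h7 : c < 2 := by
              by_contra h8
              have : p * 2 ≤ p * c := Nat.mul_le_mul_left p (by omega)
              omega
            omega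
          subst h5
          omega
      · rintro (rfl | rfl)
        · exact ⟨hp0, Or.inl (dvd_zero p)⟩
        · refine ⟨by omega, Or.inr ?_⟩
          have h4 : p - h % p + h = p + p * (h / p) := by
            have := Nat.mod_add_div h p
            omega
          rw [h4]
          exact dvd_add (dvd_refl p) (dvd_mul_right p _)
    have e4 : (0 : ℕ) ∉ ({p - h % p} : Finset ℕ) := by
      rw [mem_singleton]; omega
    rw [e3, card_insert_of_notMem e4, card_singleton, wl, if_neg hd]
    field_simp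
    push_cast
    ring

theorem C2_ind (h n : ℕ) : (∏ p ∈ pr, C2_f h p n) =
    if n.Coprime QQ ∧ (n + h).Coprime QQ then (1 : ℝ) else 0 := by
  have e1 : ∀ m : ℕ, m.Coprime QQ ↔ ∀ p ∈ pr, ¬ p ∣ m := by
    intro m
    unfold QQ
    rw [Nat.coprime_prod_right_iff]
    refine forall₂_congr fun p hp => ?_
    rw [Nat.coprime_comm, (C2_prime hp).coprime_iff_not_dvd]
  by_cases hc : n.Coprime QQ ∧ (n + h).Coprime QQ
  · rw [if_pos hc]
    refine prod_eq_one fun p hp => ?_
    unfold C2_f
    rw [if_neg]
    rintro (h1 | h1)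
    · exact (e1 n).1 hc.1 p hp h1
    · exact (e1 (n + h)).1 hc.2 p hp h1
  · rw [if_neg hc]
    have : ∃ p ∈ pr, p ∣ n ∨ p ∣ n + h := by
      by_contra hcon
      push Not at hcon
      exact hc ⟨(e1 n).2 fun p hp => (hcon p hp).1, (e1 (n + h)).2 fun p hp => (hcon p hp).2⟩
    obtain ⟨p, hp, h1⟩ := this
    refine prod_eq_zero hp ?_
    unfold C2_f
    rw [if_pos h1]

/-- item C2 -/
theorem prf_C2 (h1 : D_CRT) (h2 : D_PER) : D_C2 := by
  intro h N
  have hpr : ∀ p ∈ pr, p.Prime := fun p hp => C2_prime hp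
  have hQ : 0 < QQ := prod_pos fun p hp => (hpr p hp).pos
  have hQR : (0 : ℝ) < QQ := by exact_mod_cast hQ
  set F : ℕ → ℝ := fun n => ∏ p ∈ pr, C2_f h p n with hF
  have hS : ∑ n ∈ range QQ, F n = ∏ p ∈ pr, ∑ n ∈ range p, C2_f h p n :=
    h1 pr hpr (C2_f h) fun p _ n => C2_f_per h p n p dvd_rfl
  have hS1 : ∑ n ∈ range QQ, F n = QQ * (dl ^ 2 * ww h) := by
    rw [hS, prod_congr rfl fun p hp => C2_loc h p (hpr p hp), prod_mul_distrib, prod_mul_distrib,
      prod_pow]
    unfold dl ww QQ
    push_cast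
    ring
  have hS2 : ∑ n ∈ range QQ, F n ≤ QQ := by
    calc ∑ n ∈ range QQ, F n ≤ ∑ n ∈ range QQ, (1 : ℝ) := by
          refine sum_le_sum fun n _ => ?_
          exact prod_le_one (fun p _ => C2_f_nonneg h p n) fun p _ => C2_f_le h p n
      _ = QQ := by simp
  have hper := h2 QQ hQ F (fun n => prod_nonneg fun p _ => C2_f_nonneg h p n)
    (fun n => prod_congr rfl fun p hp => C2_f_per h p n QQ (dvd_prod_of_mem _ hp)) N
  have hcount : (((BB N).filter (fun x => (x + h).Coprime QQ)).card : ℝ) =
      ∑ n ∈ Icc 1 N, F n := by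
    rw [hF]
    simp_rw [C2_ind]
    rw [sum_boole, BB, filter_filter]
  rw [hcount]
  have h3 := (abs_le.1 hper).2
  have h4 : (N : ℝ) / QQ * ∑ n ∈ range QQ, F n = dl ^ 2 * ww h * N := by
    rw [hS1]
    field_simp
  rw [h4] at h3
  linarith

end MPb51559.DN
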