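import Pool.Agent.Work.MP_b51559_nt.DN.Stmts

/-!
# Item CRT: sums of products of periodic functions
-/

namespace MPb51559.DN

open Finset

lemma CRT_mul {a b : ℕ} (ha : 0 < a) (hb : 0 < b) (h : Nat.Coprime a b) {F G : ℕ → ℝ}
    (hF : ∀ n, F (n + a) = F n) (hG : ∀ n, G (n + b) = G n) :
    ∑ n ∈ range (a * b), F n * G n = (∑ n ∈ range a, F n) * ∑ n ∈ range b, G n := by
  have hF' : ∀ n, F (n % a) = F n := fun n => Function.Periodic.map_mod_nat hF n
  have hG' : ∀ n, G (n % b) = G n := fun n => Function.Periodic.map_mod_nat hG n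
  rw [Finset.sum_mul_sum, ← Finset.sum_product']
  refine Finset.sum_nbij' (fun n => (n % a, n % b))
    (fun p => (Nat.chineseRemainder h p.1 p.2 : ℕ)) ?_ ?_ ?_ ?_ ?_
  · intro n _
    rw [mem_product]
    exact ⟨mem_range.2 (Nat.mod_lt _ ha), mem_range.2 (Nat.mod_lt _ hb)⟩
  · intro p _
    exact mem_range.2 (Nat.chineseRemainder_lt_mul h _ _ ha.ne' hb.ne')
  · intro n hn
    have h1 : n ≡ Nat.chineseRemainder h (n % a) (n % b) [MOD a * b] :=
      Nat.chineseRemainder_modEq_unique h (Nat.mod_modEq n a).symm (Nat.mod_modEq n b).symm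
    exact (Nat.ModEq.eq_of_lt_of_lt h1 (mem_range.1 hn)
      (Nat.chineseRemainder_lt_mul h _ _ ha.ne' hb.ne')).symm
  · intro p hp
    rw [mem_product, mem_range, mem_range] at hp
    have h1 := (Nat.chineseRemainder h p.1 p.2).2
    refine Prod.ext ?_ ?_
    · have h2 : (Nat.chineseRemainder h p.1 p.2 : ℕ) % a = p.1 % a := h1.1
      simpa [Nat.mod_eq_of_lt hp.1] using h2
    · have h2 : (Nat.chineseRemainder h p.1 p.2 : ℕ) % b = p.2 % b := h1.2
      simpa [Nat.mod_eq_of_lt hp.2] using h2
  · intro n _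
    simp only [hF', hG']

theorem prf_CRT : D_CRT := by
  intro s hs f hf
  induction s using Finset.induction_on with
  | empty => simp
  | @insert p s hp ih =>
    have ih' := ih (fun q hq => hs q (mem_insert_of_mem hq))
      (fun q hq => hf q (mem_insert_of_mem hq))
    rw [prod_insert hp, prod_insert hp, ← ih']
    have hpp := hs p (mem_insert_self p s)
    have hcop : Nat.Coprime p (∏ q ∈ s, q) := by
      refine Nat.Coprime.prod_right fun q hq => ?_
      refine (Nat.coprime_primes hpp (hs q (mem_insert_of_mem hq))).2 ?_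
      rintro rfl
      exact hp hq
    have hpos : 0 < ∏ q ∈ s, q := prod_pos fun q hq => (hs q (mem_insert_of_mem hq)).pos
    rw [← CRT_mul hpp.pos hpos hcop (hf p (mem_insert_self p s)) (G := fun n => ∏ q ∈ s, f q n)]
    · exact sum_congr rfl fun n _ => prod_insert hp
    · intro n
      refine prod_congr rfl fun q hq => ?_
      obtain ⟨c, hc⟩ := Finset.dvd_prod_of_mem (fun q => q) hq
      have h1 : ∀ m, f q (m + q) = f q m := hf q (mem_insert_of_mem hq)
      have h2 : ∀ k m, f q (m + q * k) = f q m := by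
        intro k
        induction k with
        | zero => intro m; rw [Nat.mul_zero, Nat.add_zero]
        | succ k ihk => intro m; rw [Nat.mul_succ, ← Nat.add_assoc, h1, ihk]
      rw [hc]
      exact h2 c n

end MPb51559.DN
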