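import Pool.Agent.Work.MP_b51559_nt.DN.Stmts

/-!
Block DN, item PER: the mean of a nonnegative periodic function over `[1, N]`.
-/

set_option autoImplicit false

namespace MPb51559.DN

open Finset

theorem PER_mul (q : ℕ) (F : ℕ → ℝ) (hF : ∀ n, F (n + q) = F n) (k n : ℕ) : F (k * q + n) = F n := by
  induction k with
  | zero => simp
  | succ k ih =>
    have h : (k + 1) * q + n = k * q + n + q := by ring
    rw [h, hF, ih]

theorem PER_blocks (q : ℕ) (F : ℕ → ℝ) (hF : ∀ n, F (n + q) = F n) (k : ℕ) :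
    ∑ i ∈ range (k * q), F i = k * ∑ i ∈ range q, F i := by
  induction k with
  | zero => simp
  | succ k ih =>
    have h : (k + 1) * q = k * q + q := by ring
    rw [h, sum_range_add, ih]
    have h2 : ∑ x ∈ range q, F (k * q + x) = ∑ x ∈ range q, F x :=
      sum_congr rfl fun x _ => PER_mul q F hF k x
    rw [h2]
    push_cast
    ring

theorem PER_shift (q : ℕ) (F : ℕ → ℝ) (hF : ∀ n, F (n + q) = F n) :
    ∑ i ∈ range q, F (i + 1) = ∑ i ∈ range q, F i := by
  have h1 := sum_range_succ F q
  have h2 := sum_range_succ' F q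
  have h3 : F q = F 0 := by
    have := hF 0
    rwa [zero_add] at this
  linarith

theorem prf_PER : D_PER := by
  intro q hq F hF0 hF N
  have hG0 : ∀ n, 0 ≤ F (n + 1) := fun n => hF0 _
  have hG : ∀ n, (fun i => F (i + 1)) (n + q) = (fun i => F (i + 1)) n := by
    intro n
    have h : n + q + 1 = n + 1 + q := by ring
    change F (n + q + 1) = F (n + 1)
    rw [h, hF]
  have hI : ∑ n ∈ Icc 1 N, F n = ∑ i ∈ range N, F (i + 1) := by
    have h1 := sum_Ico_eq_sum_range F 1 (N + 1)
    have h2 : Icc 1 N = Ico 1 (N + 1) := by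
      ext x
      simp only [mem_Icc, mem_Ico]
      omega
    rw [h2, h1, Nat.add_sub_cancel]
    exact sum_congr rfl fun i _ => by rw [add_comm]
  have hN : N = (N / q) * q + N % q := by
    have := Nat.div_add_mod N q
    rw [mul_comm] at this
    exact this.symm
  have hr : N % q < q := Nat.mod_lt _ hq
  set k := N / q with hk
  set r := N % q with hr'
  set S : ℝ := ∑ n ∈ range q, F n with hS
  have hS0 : 0 ≤ S := sum_nonneg fun n _ => hF0 n
  have hsum : ∑ i ∈ range N, F (i + 1) = k * S + ∑ i ∈ range r, F (i + 1) := by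
    rw [hN, sum_range_add, PER_blocks q (fun i => F (i + 1)) hG k, PER_shift q F hF]
    congr 1
    exact sum_congr rfl fun x _ => PER_mul q (fun i => F (i + 1)) hG k x
  have hr0 : 0 ≤ ∑ i ∈ range r, F (i + 1) := sum_nonneg fun n _ => hF0 _
  have hr1 : ∑ i ∈ range r, F (i + 1) ≤ S := by
    have h1 : ∑ i ∈ range r, F (i + 1) ≤ ∑ i ∈ range q, F (i + 1) :=
      sum_le_sum_of_subset_of_nonneg (range_subset_range.2 hr.le) fun i _ _ => hF0 _
    rw [PER_shift q F hF] at h1
    exact h1
  have hq' : (0 : ℝ) < q := by exact_mod_cast hq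
  have hNr : (N : ℝ) = k * q + r := by exact_mod_cast hN
  have hNq : (N : ℝ) / q * S = k * S + (r : ℝ) / q * S := by
    rw [hNr]
    field_simp
  have hrq0 : 0 ≤ (r : ℝ) / q * S := by positivity
  have hrq1 : (r : ℝ) / q * S ≤ S := by
    have h1 : (r : ℝ) / q ≤ 1 := by
      rw [div_le_one hq']
      exact_mod_cast hr.le
    calc (r : ℝ) / q * S ≤ 1 * S := mul_le_mul_of_nonneg_right h1 hS0
      _ = S := one_mul S
  rw [hI, hsum, hNq, abs_le]
  constructor <;> linarith

end MPb51559.DN
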