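import Pool.Agent.Work.MP_b51559_nt.DN.Stmts

set_option autoImplicit false

/-! Block DN, item AVG (helper70): averaging over a product of finite sets. -/

namespace MPb51559.DN

open Finset
open scoped Classical

/-- the product of the cardinalities outside two indices -/
noncomputable def AVG_K {r : ℕ} (S : Fin r → Finset ℕ) (i j : Fin r) : ℕ :=
  ∏ l, (if l = i then 1 else if l = j then 1 else (S l).card)

lemma AVG_prod {r : ℕ} (S : Fin r → Finset ℕ) {i j : Fin r} (hij : i ≠ j) :
    ∏ l, (S l).card = AVG_K S i j * ((S i).card * (S j).card) := by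
  have h1 : ∀ l : Fin r, (S l).card = (if l = i then 1 else if l = j then 1 else (S l).card) *
      ((if l = i then (S l).card else 1) * (if l = j then (S l).card else 1)) := by
    intro l
    by_cases hi : l = i
    · subst hi
      rw [if_pos rfl, if_pos rfl, if_neg hij, one_mul, mul_one]
    · by_cases hj : l = j
      · subst hj
        rw [if_neg hi, if_pos rfl, if_neg hi, if_pos rfl, one_mul, one_mul]
      · rw [if_neg hi, if_neg hj, if_neg hi, if_neg hj, mul_one, mul_one]
  rw [Finset.prod_congr rfl (fun l _ => h1 l), Finset.prod_mul_distrib, Finset.prod_mul_distrib,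
    Finset.prod_ite_eq', Finset.prod_ite_eq', if_pos (mem_univ _), if_pos (mem_univ _)]
  rfl

lemma AVG_fiber {r : ℕ} (S : Fin r → Finset ℕ) {i j : Fin r} (hij : i ≠ j) {a b : ℕ}
    (ha : a ∈ S i) (hb : b ∈ S j) :
    ((Fintype.piFinset S).filter (fun x => (x i, x j) = (a, b))).card = AVG_K S i j := by
  have h1 : (Fintype.piFinset S).filter (fun x => (x i, x j) = (a, b)) =
      Fintype.piFinset (fun l => if l = i then {a} else if l = j then {b} else S l) := by
    ext x
    rw [mem_filter, Fintype.mem_piFinset, Fintype.mem_piFinset]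
    constructor
    · rintro ⟨h, he⟩ l
      have hi' : x i = a := congrArg Prod.fst he
      have hj' : x j = b := congrArg Prod.snd he
      by_cases hi : l = i
      · subst hi
        rw [if_pos rfl, mem_singleton]
        exact hi'
      · by_cases hj : l = j
        · subst hj
          rw [if_neg hi, if_pos rfl, mem_singleton]
          exact hj'
        · rw [if_neg hi, if_neg hj]
          exact h l
    · intro h
      have hi' : x i = a := by
        have := h i
        rwa [if_pos rfl, mem_singleton] at this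
      have hj' : x j = b := by
        have := h j
        rwa [if_neg (Ne.symm hij), if_pos rfl, mem_singleton] at this
      refine ⟨fun l => ?_, by rw [hi', hj']⟩
      by_cases hi : l = i
      · subst hi
        rw [hi']
        exact ha
      · by_cases hj : l = j
        · subst hj
          rw [hj']
          exact hb
        · have := h l
          rwa [if_neg hi, if_neg hj] at this
  rw [h1, Fintype.card_piFinset, AVG_K]
  refine Finset.prod_congr rfl fun l _ => ?_
  by_cases hi : l = i
  · rw [if_pos hi, if_pos hi, card_singleton]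
  · by_cases hj : l = j
    · rw [if_neg hi, if_pos hj, if_neg hi, if_pos hj, card_singleton]
    · rw [if_neg hi, if_neg hj, if_neg hi, if_neg hj]

lemma AVG_count {r : ℕ} (S : Fin r → Finset ℕ) {i j : Fin r} (hij : i ≠ j)
    (E : ℕ → ℕ → Prop) :
    ((Fintype.piFinset S).filter (fun x => E (x i) (x j))).card =
      ((S i ×ˢ S j).filter (fun y => E y.1 y.2)).card * AVG_K S i j := by
  rw [Finset.card_eq_sum_card_fiberwise (f := fun x : Fin r → ℕ => (x i, x j))
    (t := (S i ×ˢ S j).filter (fun y => E y.1 y.2)), Finset.sum_const_nat]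
  · rintro ⟨a, b⟩ hab
    rw [mem_filter, mem_product] at hab
    rw [← AVG_fiber S hij hab.1.1 hab.1.2, filter_filter]
    congr 1
    refine filter_congr fun x _ => ?_
    constructor
    · rintro ⟨-, h⟩
      exact h
    · intro h
      refine ⟨?_, h⟩
      have hi' : x i = a := congrArg Prod.fst h
      have hj' : x j = b := congrArg Prod.snd h
      rw [hi', hj']
      exact hab.2
  · intro x hx
    have hx' := mem_filter.1 (Finset.mem_coe.1 hx)
    have h1 := Fintype.mem_piFinset.1 hx'.1
    exact Finset.mem_coe.2 (mem_filter.2 ⟨mem_product.2 ⟨h1 i, h1 j⟩, hx'.2⟩)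

theorem prf_AVG : D_AVG := by
  intro r S hS E T hT
  have hQ : 0 < ∏ l, (S l).card := Finset.prod_pos fun l _ => hS l
  have hQ' : (0 : ℝ) < ((∏ l, (S l).card : ℕ) : ℝ) := by exact_mod_cast hQ
  have h1 : ∑ x ∈ Fintype.piFinset S, T ≤ ∑ x ∈ Fintype.piFinset S,
      ((univ.filter (fun z : Fin r × Fin r => z.1 < z.2 ∧ E (x z.1) (x z.2))).card : ℝ) :=
    Finset.sum_le_sum fun x hx => hT x (Fintype.mem_piFinset.1 hx)
  have h2 : ∑ x ∈ Fintype.piFinset S,
      ((univ.filter (fun z : Fin r × Fin r => z.1 < z.2 ∧ E (x z.1) (x z.2))).card : ℝ) =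
      ∑ z ∈ univ.filter (fun z : Fin r × Fin r => z.1 < z.2),
        (((Fintype.piFinset S).filter (fun x => E (x z.1) (x z.2))).card : ℝ) := by
    have e1 : ∀ x : Fin r → ℕ,
        ((univ.filter (fun z : Fin r × Fin r => z.1 < z.2 ∧ E (x z.1) (x z.2))).card : ℝ) =
        ∑ z ∈ univ.filter (fun z : Fin r × Fin r => z.1 < z.2),
          if E (x z.1) (x z.2) then (1 : ℝ) else 0 := by
      intro x
      rw [Finset.sum_boole, filter_filter]
    rw [Finset.sum_congr rfl (fun x _ => e1 x), Finset.sum_comm]
    exact Finset.sum_congr rfl fun z _ => by rw [Finset.sum_boole]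
  have h3 : ∀ z ∈ univ.filter (fun z : Fin r × Fin r => z.1 < z.2),
      (((Fintype.piFinset S).filter (fun x => E (x z.1) (x z.2))).card : ℝ) =
      ((∏ l, (S l).card : ℕ) : ℝ) * ((((S z.1 ×ˢ S z.2).filter (fun y => E y.1 y.2)).card : ℝ) /
        ((S z.1).card * (S z.2).card)) := by
    intro z hz
    have hz' : z.1 ≠ z.2 := ne_of_lt (mem_filter.1 hz).2
    have p1 : ((S z.1).card : ℝ) ≠ 0 := by exact_mod_cast (hS z.1).ne'
    have p2 : ((S z.2).card : ℝ) ≠ 0 := by exact_mod_cast (hS z.2).ne'
    rw [AVG_count S hz' E, AVG_prod S hz']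
    push_cast
    field_simp
  rw [h2, Finset.sum_congr rfl h3, ← Finset.mul_sum, Finset.sum_const, nsmul_eq_mul,
    Fintype.card_piFinset] at h1
  exact le_of_mul_le_mul_left h1 hQ'

end MPb51559.DN
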