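import Pool.Agent.Work.MP_b51559_nt.DN.Stmts

set_option autoImplicit false

/-!
# Block DN, item TUR: Turán
-/

namespace MPb51559.DN

open Finset
open scoped Classical

/-- the graph of the pairs without the relation -/
def TUR_G (r : ℕ) (R : Fin r → Fin r → Prop) : SimpleGraph (Fin r) where
  Adj i j := i ≠ j ∧ ¬ R (min i j) (max i j)
  symm := ⟨fun i j h => ⟨h.1.symm, by rw [min_comm, max_comm]; exact h.2⟩⟩
  loopless := ⟨fun _ h => h.1 rfl⟩

theorem TUR_free (r : ℕ) (R : Fin r → Fin r → Prop)
    (h : ∀ s : Finset (Fin r), s.card = 49 → ∃ i ∈ s, ∃ j ∈ s, i < j ∧ R i j) :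
    (TUR_G r R).CliqueFree (48 + 1) := by
  intro s hs
  obtain ⟨hc, hcard⟩ := hs
  obtain ⟨i, hi, j, hj, hij, hR⟩ := h s hcard
  have hadj := hc (mem_coe.mpr hi) (mem_coe.mpr hj) (ne_of_lt hij)
  have h2 := hadj.2
  rw [min_eq_left hij.le, max_eq_right hij.le] at h2
  exact h2 hR

theorem TUR_lt (r : ℕ) :
    (((univ.filter (fun z : Fin r × Fin r => z.1 < z.2)).card : ℕ) : ℝ) =
      (r : ℝ) ^ 2 / 2 - r / 2 := by
  have hswap : (univ.filter (fun z : Fin r × Fin r => z.2 < z.1)).card =
      (univ.filter (fun z : Fin r × Fin r => z.1 < z.2)).card := by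
    refine card_bij (fun z _ => (z.2, z.1)) ?_ ?_ ?_
    · intro z hz
      simp only [mem_filter, mem_univ, true_and] at hz ⊢
      exact hz
    · intro a _ b _ hab
      simp only [Prod.mk.injEq] at hab
      exact Prod.ext hab.2 hab.1
    · intro b hb
      simp only [mem_filter, mem_univ, true_and] at hb
      exact ⟨(b.2, b.1), by simpa using hb, rfl⟩
  have hdiag : (univ.filter (fun z : Fin r × Fin r => z.1 = z.2)).card = r := by
    have h1 : (univ.filter (fun z : Fin r × Fin r => z.1 = z.2)) =
        (univ : Finset (Fin r)).image (fun i => (i, i)) := by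
      ext z
      simp only [mem_filter, mem_univ, true_and, mem_image]
      constructor
      · intro h
        exact ⟨z.1, Prod.ext rfl h⟩
      · rintro ⟨i, rfl⟩
        rfl
    rw [h1, card_image_of_injective _ (fun a b h => (Prod.mk.inj h).1), card_univ,
      Fintype.card_fin]
  have htot : (univ : Finset (Fin r × Fin r)).card =
      (univ.filter (fun z : Fin r × Fin r => z.1 < z.2)).card +
      ((univ.filter (fun z : Fin r × Fin r => z.2 < z.1)).card +
      (univ.filter (fun z : Fin r × Fin r => z.1 = z.2)).card) := by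
    have h1 := card_filter_add_card_filter_not (s := (univ : Finset (Fin r × Fin r)))
      (fun z => z.1 < z.2)
    rw [← h1]
    congr 1
    rw [← card_union_of_disjoint]
    · congr 1
      ext z
      simp only [mem_filter, mem_univ, true_and, mem_union]
      rw [not_lt, le_iff_lt_or_eq]
      constructor
      · rintro (h | h)
        · exact Or.inl h
        · exact Or.inr h.symm
      · rintro (h | h)
        · exact Or.inl h
        · exact Or.inr h.symm
    · rw [disjoint_filter]
      intro z _ h1 h2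
      exact absurd h2.symm (ne_of_lt h1)
  rw [hswap, hdiag, card_univ, Fintype.card_prod, Fintype.card_fin] at htot
  have h2 : ((r * r : ℕ) : ℝ) =
      ((univ.filter (fun z : Fin r × Fin r => z.1 < z.2)).card +
      ((univ.filter (fun z : Fin r × Fin r => z.1 < z.2)).card + r) : ℕ) := by
    exact_mod_cast htot
  push_cast at h2
  linarith

theorem prf_TUR : D_TUR := by
  intro r R h
  have hfree := TUR_free r R h
  have hT := hfree.card_edgeFinset_le
  simp only [Fintype.card_fin] at hT
  have hedge : (univ.filter (fun z : Fin r × Fin r => z.1 < z.2 ∧ ¬ R z.1 z.2)).card ≤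
      (TUR_G r R).edgeFinset.card := by
    refine card_le_card_of_injOn (fun z => s(z.1, z.2)) ?_ ?_
    · intro z hz
      simp only [coe_filter, mem_univ, true_and, Set.mem_setOf_eq] at hz
      simp only [SimpleGraph.coe_edgeFinset, SimpleGraph.mem_edgeSet]
      refine ⟨ne_of_lt hz.1, ?_⟩
      rw [min_eq_left hz.1.le, max_eq_right hz.1.le]
      exact hz.2
    · intro a ha b hb hab
      simp only [coe_filter, mem_univ, true_and, Set.mem_setOf_eq] at ha hb
      simp only [Sym2.eq_iff] at hab
      rcases hab with ⟨h1, h2⟩ | ⟨h1, h2⟩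
      · exact Prod.ext h1 h2
      · exfalso
        have h3 := ha.1
        rw [h1, h2] at h3
        exact absurd hb.1 (not_lt.mpr h3.le)
  have hsum : (univ.filter (fun z : Fin r × Fin r => z.1 < z.2)).card =
      (univ.filter (fun z : Fin r × Fin r => z.1 < z.2 ∧ R z.1 z.2)).card +
      (univ.filter (fun z : Fin r × Fin r => z.1 < z.2 ∧ ¬ R z.1 z.2)).card := by
    rw [← filter_filter, ← filter_filter]
    exact (card_filter_add_card_filter_not _).symm
  have hlt := TUR_lt r
  rw [hsum] at hlt
  push_cast at hlt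
  have hT' : ((TUR_G r R).edgeFinset.card : ℝ) ≤ 47 * (r : ℝ) ^ 2 / 96 := by
    have ht48 : r % 48 < 48 := Nat.mod_lt _ (by norm_num)
    have htr : r % 48 ≤ r := Nat.mod_le _ _
    obtain ⟨t, htd⟩ : ∃ t : ℕ, t = r % 48 := ⟨_, rfl⟩
    rw [← htd] at hT ht48 htr
    have h1 : ((TUR_G r R).edgeFinset.card : ℝ) ≤
        (((r ^ 2 - t ^ 2) * (48 - 1) / (2 * 48) + t.choose 2 : ℕ) : ℝ) := by
      exact_mod_cast hT
    refine h1.trans ?_
    have h2 : (((r ^ 2 - t ^ 2) * (48 - 1) / (2 * 48) : ℕ) : ℝ) ≤
        ((r : ℝ) ^ 2 - (t : ℝ) ^ 2) * 47 / 96 := by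
      refine (Nat.cast_div_le).trans ?_
      rw [Nat.cast_mul, Nat.cast_sub (Nat.pow_le_pow_left htr 2)]
      push_cast
      norm_num
    rw [Nat.cast_add, Nat.cast_choose_two]
    have ht0 : (0 : ℝ) ≤ t := Nat.cast_nonneg _
    have ht1 : (t : ℝ) ≤ 48 := by
      have : t ≤ 48 := ht48.le
      exact_mod_cast this
    nlinarith
  have hedge' : ((univ.filter (fun z : Fin r × Fin r => z.1 < z.2 ∧ ¬ R z.1 z.2)).card : ℝ) ≤
      ((TUR_G r R).edgeFinset.card : ℝ) := by exact_mod_cast hedge
  linarith

end MPb51559.DN
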