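import Pool.Agent.Work.MP_b51559_nt.DN.Stmts

set_option autoImplicit false

namespace MPb51559.DN

open Finset
open scoped Classical

theorem prf_COVER : D_COVER := by
  intro r C
  induction r with
  | zero =>
    intro S h
    exact absurd ⟨fun _ => 0, fun j hj => absurd hj (Nat.not_lt_zero j),
      fun j hj => absurd hj (Nat.not_lt_zero _)⟩ h
  | succ r ih =>
    intro S h
    by_cases hS : S.Nonempty
    · have ht0 : S.min' hS ∈ S := S.min'_mem hS
      have hmin : ∀ N ∈ S, S.min' hS ≤ N := fun N hN => S.min'_le N hN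
      generalize S.min' hS = t0 at ht0 hmin
      obtain ⟨T, hT, hc⟩ := ih (S.filter fun N => C * t0 ≤ N) (by
        rintro ⟨N, hN1, hN2⟩
        refine h ⟨fun j => Nat.casesOn j t0 N, fun j hj => ?_, fun j hj => ?_⟩
        · cases j with
          | zero => exact ht0
          | succ j => exact (Finset.mem_filter.1 (hN1 j (by omega))).1
        · cases j with
          | zero => exact (Finset.mem_filter.1 (hN1 0 (by omega))).2
          | succ j => exact hN2 j (by omega))
      refine ⟨insert t0 T, (Finset.card_insert_le _ _).trans (by omega), fun N hN => ?_⟩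
      by_cases hCN : C * t0 ≤ N
      · obtain ⟨t, ht, h1, h2⟩ := hc N (Finset.mem_filter.2 ⟨hN, hCN⟩)
        exact ⟨t, Finset.mem_insert_of_mem ht, h1, h2⟩
      · exact ⟨t0, Finset.mem_insert_self _ _, hmin N hN, by omega⟩
    · exact ⟨∅, by simp, fun N hN => absurd ⟨N, hN⟩ hS⟩

end MPb51559.DN
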