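import Pool.Agent.Work.MP_b51559_nt.DN.Stmts

set_option autoImplicit false

/-!
# Block DN, item ABEL: summation by parts
-/

namespace MPb51559.DN

open Finset
open scoped Classical

theorem ABEL_not_mem (P : Set ℕ) (N : ℕ) : N + 1 ∉ PP P N := by
  unfold PP
  rw [Finset.mem_filter, Finset.mem_Icc]
  omega

theorem ABEL_mem (P : Set ℕ) (N : ℕ) (h : N + 1 ∈ P) : PP P (N + 1) = insert (N + 1) (PP P N) := by
  ext x
  unfold PP
  rw [Finset.mem_insert, Finset.mem_filter, Finset.mem_filter, Finset.mem_Icc, Finset.mem_Icc]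
  constructor
  · rintro ⟨⟨h1, h2⟩, h3⟩
    rcases Nat.lt_or_ge N x with h4 | h4
    · exact Or.inl (by omega)
    · exact Or.inr ⟨⟨h1, h4⟩, h3⟩
  · rintro (h1 | ⟨⟨h1, h2⟩, h3⟩)
    · subst h1
      exact ⟨⟨by omega, le_rfl⟩, h⟩
    · exact ⟨⟨h1, by omega⟩, h3⟩

theorem ABEL_nmem (P : Set ℕ) (N : ℕ) (h : N + 1 ∉ P) : PP P (N + 1) = PP P N := by
  ext x
  unfold PP
  rw [Finset.mem_filter, Finset.mem_filter, Finset.mem_Icc, Finset.mem_Icc]
  constructor
  · rintro ⟨⟨h1, h2⟩, h3⟩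
    refine ⟨⟨h1, ?_⟩, h3⟩
    rcases Nat.lt_or_ge N x with h4 | h4
    · exfalso
      have h5 : x = N + 1 := by omega
      exact h (h5 ▸ h3)
    · exact h4
  · rintro ⟨⟨h1, h2⟩, h3⟩
    exact ⟨⟨h1, by omega⟩, h3⟩

theorem ABEL_eq (P : Set ℕ) (H : ℕ) :
    ∑ N ∈ Icc 1 H, ((PP P N).card : ℝ) / (N * (N + 1)) =
      ∑ h ∈ PP P H, 1 / (h : ℝ) - ((PP P H).card : ℝ) / (H + 1) := by
  induction H with
  | zero =>
    have h : PP P 0 = ∅ := by
      unfold PP
      simp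
    rw [h]
    simp
  | succ H ih =>
    rw [Finset.sum_Icc_succ_top (by omega), ih]
    have h1 : ((H : ℝ) + 1) ≠ 0 := by positivity
    have h2 : ((H : ℝ) + 1 + 1) ≠ 0 := by positivity
    by_cases h : H + 1 ∈ P
    · rw [ABEL_mem P H h, Finset.card_insert_of_notMem (ABEL_not_mem P H),
        Finset.sum_insert (ABEL_not_mem P H)]
      push_cast
      field_simp
      ring
    · rw [ABEL_nmem P H h]
      push_cast
      field_simp
      ring

theorem prf_ABEL : D_ABEL := by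
  intro P H
  rw [ABEL_eq]
  have : 0 ≤ ((PP P H).card : ℝ) / (H + 1) := by positivity
  linarith

end MPb51559.DN
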