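import Pool.Agent.Work.MP_b51559_nt.DN.Stmts

set_option autoImplicit false

/-!
# Block DN, item DEN: a large weighted mean gives a large density
-/

namespace MPb51559.DN

open Finset
open scoped Classical

theorem prf_DEN (h1 : D_TRU) (h2 : D_MEAN) (h3 : D_TAU) : D_DEN := by
  refine ⟨10000000 * QQ, fun P N hN hW => ?_⟩
  have a1 := h1 P N
  have a2 := h2 N
  obtain ⟨t1, t2⟩ := h3
  have hn : (0 : ℝ) ≤ N := Nat.cast_nonneg N
  have hN' : (10000000 : ℝ) * QQ ≤ N := by exact_mod_cast hN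
  have a3 : (N : ℝ) * (1 / 48 - 1 / 1000000) ≤ N * WW P N := mul_le_mul_of_nonneg_left hW hn
  have a4 : (N : ℝ) * 4.2418 ≤ N * tau := mul_le_mul_of_nonneg_left t1.le hn
  have ht : 0 < tau := lt_trans (by norm_num) t1
  have a5 : tau * (10 * (N : ℝ)) ≤ tau * (2109 * ((PP P N).card : ℝ)) := by
    norm_num at a4
    linarith
  have a6 : (10 : ℝ) * N ≤ 2109 * ((PP P N).card : ℝ) := le_of_mul_le_mul_left a5 ht
  exact_mod_cast a6

end MPb51559.DN
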