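import Pool.Agent.Work.MP_b51559_nt.DN.Stmts

set_option autoImplicit false

/-!
# Block DN, item G210: the weight on the multiples of 210
-/

namespace MPb51559.DN

open Finset

theorem G210_small {p : ℕ} (hp : p ∈ pr) (h7 : p ≤ 7) : p ∣ 210 := by
  rw [pr_eq] at hp
  simp only [mem_insert, mem_singleton] at hp
  have h : p = 2 ∨ p = 3 ∨ p = 5 ∨ p = 7 := by omega
  rcases h with rfl | rfl | rfl | rfl <;> norm_num

theorem G210_two_le {p : ℕ} (hp : p ∈ pr) : (2 : ℝ) ≤ p := by
  have h := (mem_filter.1 hp).2.two_le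
  exact_mod_cast h

theorem prf_G210 : D_G210 := by
  intro h hh
  have e : ww h = (∏ p ∈ pr.filter (fun p => p ≤ 7), wl p h) *
      ∏ p ∈ pr.filter (fun p => ¬ p ≤ 7), wl p h :=
    (Finset.prod_filter_mul_prod_filter_not pr (fun p => p ≤ 7) (fun p => wl p h)).symm
  have e1 : ∏ p ∈ pr.filter (fun p => p ≤ 7), wl p h =
      ∏ p ∈ pr.filter (fun p => p ≤ 7), (p : ℝ) / (p - 1) := by
    refine prod_congr rfl fun p hp => ?_
    obtain ⟨h1, h2⟩ := mem_filter.1 hp
    exact if_pos ((G210_small h1 h2).trans hh)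
  rw [e, e1]
  unfold tau
  refine mul_le_mul_of_nonneg_left ?_ ?_
  · refine prod_le_prod (fun p hp => ?_) (fun p hp => ?_)
    · have h2 := G210_two_le (mem_filter.1 hp).1
      have h3 : (0 : ℝ) ≤ (p : ℝ) - 2 := by linarith
      positivity
    · have h2 := G210_two_le (mem_filter.1 hp).1
      have h3 : (0 : ℝ) < (p : ℝ) - 1 := by linarith
      unfold wl
      split_ifs
      · rw [div_le_div_iff₀ (by positivity) h3]
        have h4 : (p : ℝ) * (p - 2) * (p - 1) = p * ((p - 1) ^ 2) - p * (p - 1) := by ring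
        rw [h4]
        have h5 : 0 ≤ (p : ℝ) * (p - 1) := by positivity
        linarith
      · exact le_rfl
  · refine prod_nonneg fun p hp => ?_
    have h2 := G210_two_le (mem_filter.1 hp).1
    have h3 : (0 : ℝ) ≤ (p : ℝ) - 1 := by linarith
    positivity

end MPb51559.DN
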