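import Pool.Agent.Work.MP_b51559_nt.DN.Stmts

/-! Block DN, item HAR: harmonic sums. -/

set_option autoImplicit false

namespace MPb51559.DN

open Finset
open scoped Classical

theorem HAR_step (x : ℝ) (hx : 0 < x) : Real.log (x + 1) - Real.log x ≤ 1 / x := by
  have h1 : Real.log (x + 1) - Real.log x = Real.log (1 + 1 / x) := by
    rw [← Real.log_div (by positivity) hx.ne']
    congr 1
    field_simp
  rw [h1]
  have h2 := Real.log_le_sub_one_of_pos (show 0 < 1 + 1 / x by positivity)
  linarith

theorem HAR_step' (x : ℝ) (hx : 0 < x) : 1 / (x + 1) ≤ Real.log (x + 1) - Real.log x := by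
  have h1 : Real.log (x / (x + 1)) = Real.log x - Real.log (x + 1) :=
    Real.log_div hx.ne' (by positivity)
  have h2 := Real.log_le_sub_one_of_pos (show 0 < x / (x + 1) by positivity)
  have h3 : x / (x + 1) - 1 = -(1 / (x + 1)) := by
    field_simp
    ring
  rw [h1, h3] at h2
  linarith

theorem HAR_up (t M : ℕ) (ht : 1 ≤ t) (hM : t ≤ M) :
    ∑ n ∈ Icc t M, 1 / ((n : ℝ) + 1) ≤ 1 + (Real.log M - Real.log t) := by
  induction M, hM using Nat.le_induction with
  | base =>
    rw [Icc_self, sum_singleton, sub_self, add_zero, div_le_one (by positivity)]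
    have : (0 : ℝ) ≤ t := Nat.cast_nonneg t
    linarith
  | succ M hM ih =>
    rw [sum_Icc_succ_top (by omega)]
    have hM0 : (0 : ℝ) < M := by exact_mod_cast (by omega : 0 < M)
    have h1 := HAR_step' M hM0
    have h2 : 1 / ((M : ℝ) + 1 + 1) ≤ 1 / ((M : ℝ) + 1) :=
      one_div_le_one_div_of_le (by positivity) (by linarith)
    push_cast
    linarith

theorem HAR_lo (a b : ℕ) (hab : a ≤ b) :
    Real.log (b + 2) - Real.log (a + 1) ≤ ∑ n ∈ Icc a b, 1 / ((n : ℝ) + 1) := by
  induction b, hab using Nat.le_induction with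
  | base =>
    rw [Icc_self, sum_singleton]
    have h1 := HAR_step ((a : ℝ) + 1) (by positivity)
    have h2 : (a : ℝ) + 1 + 1 = a + 2 := by ring
    rw [h2] at h1
    exact h1
  | succ b hab ih =>
    rw [sum_Icc_succ_top (by omega)]
    have h1 := HAR_step ((b : ℝ) + 2) (by positivity)
    have h2 : (b : ℝ) + 2 + 1 = b + 1 + 2 := by ring
    have h3 : (b : ℝ) + 1 + 1 = b + 2 := by ring
    rw [h2] at h1
    push_cast
    rw [h3]
    linarith

theorem prf_HAR : D_HAR := by
  refine ⟨fun C t hC => ?_, fun a b hab => HAR_lo a b hab⟩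
  have hC0 : (0 : ℝ) ≤ Real.log C := Real.log_natCast_nonneg C
  rcases Nat.eq_zero_or_pos t with rfl | ht
  · rw [mul_zero, Icc_self, sum_singleton]
    norm_num
    exact hC0
  · have h1 := HAR_up t (C * t) ht (Nat.le_mul_of_pos_left t hC)
    refine h1.trans ?_
    have hCn : (C : ℝ) ≠ 0 := by
      have : C ≠ 0 := by omega
      exact_mod_cast this
    have htn : (t : ℝ) ≠ 0 := by
      have : t ≠ 0 := by omega
      exact_mod_cast this
    push_cast
    rw [Real.log_mul hCn htn]
    linarith

end MPb51559.DN
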