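import Pool.Agent.Work.MP_b51559_nt.DN.Stmts

set_option autoImplicit false

/-!
# Block DN: item LOG
-/

namespace MPb51559.DN

open Finset
open scoped Classical

theorem LOG_bi (T : Finset ℕ) (g : ℕ → Finset ℕ) (f : ℕ → ℝ) (hf : ∀ n, 0 ≤ f n) :
    ∑ n ∈ T.biUnion g, f n ≤ ∑ t ∈ T, ∑ n ∈ g t, f n := by
  induction T using Finset.induction_on with
  | empty => simp
  | insert a T ha ih =>
    rw [Finset.biUnion_insert, Finset.sum_insert ha]
    have h1 := Finset.sum_union_inter (s₁ := g a) (s₂ := T.biUnion g) (f := f)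
    have h2 : 0 ≤ ∑ n ∈ g a ∩ T.biUnion g, f n := Finset.sum_nonneg fun n _ => hf n
    linarith

theorem prf_LOG (h1 : D_UNI) (h2 : D_HAR) (h3 : D_ABEL) : D_LOG := by
  obtain ⟨C0, r, hU⟩ := h1
  obtain ⟨hH1, hH2⟩ := h2
  set C : ℕ := max C0 1 with hC
  have hC1 : 1 ≤ C := le_max_right _ _
  have hC0 : C0 ≤ C := le_max_left _ _
  set K : ℝ := Real.log (C + 2) + r * (1 + Real.log C) with hK
  have hlogC : 0 ≤ Real.log (C : ℝ) := Real.log_natCast_nonneg C
  refine ⟨max (C + 1) ⌈Real.exp (2110 * K)⌉₊, fun H hH P hP => ?_⟩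
  have hHC : C + 1 ≤ H := (le_max_left _ _).trans hH
  have hHe : Real.exp (2110 * K) ≤ H := by
    refine (Nat.le_ceil _).trans ?_
    exact_mod_cast (le_max_right _ _).trans hH
  have hlogH : 2110 * K ≤ Real.log H := by
    have h4 := Real.log_le_log (Real.exp_pos _) hHe
    rwa [Real.log_exp] at h4
  obtain ⟨T, hT, hN⟩ := hU H P hP
  set f : ℕ → ℝ := fun n => 1 / ((n : ℝ) + 1) with hf
  have hf0 : ∀ n, 0 ≤ f n := fun n => by positivity
  set S : Finset ℕ := Icc (C + 1) H with hS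
  set U : Finset ℕ := T.biUnion fun t => Icc t (C * t) with hU'
  -- the harmonic sum
  have e1 : Real.log (H : ℝ) - Real.log (C + 2) ≤ ∑ n ∈ S, f n := by
    have h4 := hH2 (C + 1) H hHC
    have h5 : Real.log (H : ℝ) ≤ Real.log ((H : ℝ) + 2) := by
      refine Real.log_le_log ?_ (by linarith)
      have : 0 < H := by omega
      exact_mod_cast this
    have h6 : ((C + 1 : ℕ) : ℝ) + 1 = (C : ℝ) + 2 := by
      push_cast
      ring
    rw [h6] at h4
    linarith
  have e2 : ∑ n ∈ U, f n ≤ r * (1 + Real.log C) := by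
    refine (LOG_bi T (fun t => Icc t (C * t)) f hf0).trans ?_
    calc ∑ t ∈ T, ∑ n ∈ Icc t (C * t), f n ≤ ∑ t ∈ T, (1 + Real.log C) :=
          Finset.sum_le_sum fun t _ => hH1 C t hC1
      _ = T.card * (1 + Real.log C) := by rw [Finset.sum_const, nsmul_eq_mul]
      _ ≤ r * (1 + Real.log C) := by
          refine mul_le_mul_of_nonneg_right ?_ (by linarith)
          exact_mod_cast hT
  have e3 : ∑ n ∈ S, f n ≤ ∑ n ∈ S \ U, f n + ∑ n ∈ U, f n := by
    have h4 : S ⊆ (S \ U) ∪ U := by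
      intro n hn
      by_cases hnU : n ∈ U
      · exact Finset.mem_union_right _ hnU
      · exact Finset.mem_union_left _ (Finset.mem_sdiff.2 ⟨hn, hnU⟩)
    calc ∑ n ∈ S, f n ≤ ∑ n ∈ (S \ U) ∪ U, f n :=
          Finset.sum_le_sum_of_subset_of_nonneg h4 fun n _ _ => hf0 n
      _ = ∑ n ∈ S \ U, f n + ∑ n ∈ U, f n :=
          Finset.sum_union Finset.sdiff_disjoint
  have e4 : 10 / 2109 * ∑ n ∈ S \ U, f n ≤ ∑ h ∈ PP P H, 1 / (h : ℝ) := by
    refine le_trans ?_ (h3 P H)
    rw [Finset.mul_sum]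
    calc ∑ n ∈ S \ U, 10 / 2109 * f n
        ≤ ∑ n ∈ S \ U, ((PP P n).card : ℝ) / (n * (n + 1)) := by
          refine Finset.sum_le_sum fun n hn => ?_
          obtain ⟨hnS, hnU⟩ := Finset.mem_sdiff.1 hn
          obtain ⟨hn1, hn2⟩ := Finset.mem_Icc.1 hnS
          have hgood : 10 * n ≤ 2109 * (PP P n).card := by
            rcases hN n hn2 with h4 | h4 | ⟨t, ht, h5, h6⟩
            · exact h4
            · omega
            · exfalso
              refine hnU (Finset.mem_biUnion.2 ⟨t, ht, Finset.mem_Icc.2 ⟨h5, h6.trans ?_⟩⟩)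
              exact Nat.mul_le_mul_right t hC0
          have hgood' : (10 : ℝ) * n ≤ 2109 * (PP P n).card := by exact_mod_cast hgood
          have hn0 : (0 : ℝ) < n := by
            have : 0 < n := by omega
            exact_mod_cast this
          rw [hf, le_div_iff₀ (by positivity)]
          have h7 : 10 / 2109 * (1 / ((n : ℝ) + 1)) * (n * (n + 1)) = 10 / 2109 * n := by
            field_simp
          show 10 / 2109 * (1 / ((n : ℝ) + 1)) * (n * (n + 1)) ≤ _
          rw [h7]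
          linarith
      _ ≤ ∑ N ∈ Icc 1 H, ((PP P N).card : ℝ) / (N * (N + 1)) := by
          refine Finset.sum_le_sum_of_subset_of_nonneg ?_ fun n _ _ => by positivity
          intro n hn
          obtain ⟨hn1, hn2⟩ := Finset.mem_Icc.1 (Finset.mem_sdiff.1 hn).1
          exact Finset.mem_Icc.2 ⟨by omega, hn2⟩
  have e5 : Real.log H - K ≤ ∑ n ∈ S \ U, f n := by
    rw [hK]
    linarith
  linarith

end MPb51559.DN
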