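import Pool.Agent.Work.MP_b51559_nt.DN.Stmts

set_option autoImplicit false

/-!
# Block DN, item LOW: lower density of a fixed set
-/

namespace MPb51559.DN

open Finset
open scoped Classical

/-- the successive scales -/
def LOW_sc (g : ℕ → ℕ) (N0 C : ℕ) : ℕ → ℕ
  | 0 => g N0
  | j + 1 => g (C * LOW_sc g N0 C j + LOW_sc g N0 C j + N0)

theorem LOW_ge {g : ℕ → ℕ} (hg : ∀ m, m ≤ g m) (N0 C : ℕ) :
    ∀ j, N0 ≤ LOW_sc g N0 C j
  | 0 => hg N0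
  | j + 1 => by
    have h := hg (C * LOW_sc g N0 C j + LOW_sc g N0 C j + N0)
    change N0 ≤ g (C * LOW_sc g N0 C j + LOW_sc g N0 C j + N0)
    omega

theorem LOW_step {g : ℕ → ℕ} (hg : ∀ m, m ≤ g m) (N0 C j : ℕ) :
    LOW_sc g N0 C j ≤ LOW_sc g N0 C (j + 1) ∧
      C * LOW_sc g N0 C j ≤ LOW_sc g N0 C (j + 1) := by
  have h := hg (C * LOW_sc g N0 C j + LOW_sc g N0 C j + N0)
  change LOW_sc g N0 C j ≤ g (C * LOW_sc g N0 C j + LOW_sc g N0 C j + N0) ∧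
    C * LOW_sc g N0 C j ≤ g (C * LOW_sc g N0 C j + LOW_sc g N0 C j + N0)
  omega

theorem LOW_mem {g : ℕ → ℕ} (N0 C : ℕ) : ∀ j, ∃ m, LOW_sc g N0 C j = g m
  | 0 => ⟨_, rfl⟩
  | _ + 1 => ⟨_, rfl⟩

theorem prf_LOW (h1 : D_KEY) : D_LOW := by
  intro P hP
  by_contra hcon
  push Not at hcon
  choose g hg hg' using hcon
  obtain ⟨r, N0, C, hK⟩ := h1
  have hmono : Monotone (LOW_sc g N0 C) :=
    monotone_nat_of_le_succ fun j => (LOW_step hg N0 C j).1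
  obtain ⟨j, -, h2⟩ := hK (LOW_sc g N0 C r) P (hP _) (LOW_sc g N0 C)
    (fun j hj => ⟨LOW_ge hg N0 C j, hmono hj.le⟩) (fun j _ => (LOW_step hg N0 C j).2)
  obtain ⟨m, hm⟩ := LOW_mem (g := g) N0 C j
  have h3 := hg' m
  rw [hm] at h2
  omega

end MPb51559.DN
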