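import Pool.Agent.Work.MP_b51559_nt.DN.Stmts

set_option autoImplicit false

/-!
# Block DN: item M1 (the mean of the weight over the multiples of 210)
-/

namespace MPb51559.DN

open Finset
open scoped Classical

/-- the factor of the item -/
noncomputable def M1_f (p n : ℕ) : ℝ := if p ≤ 7 then (if p ∣ n then wl p n else 0) else wl p n

lemma M1_wl_per (p n : ℕ) : wl p (n + p) = wl p n := by
  unfold wl
  have h : (p ∣ n + p) ↔ p ∣ n := by simp
  simp only [h]

lemma M1_f_per (p n : ℕ) : M1_f p (n + p) = M1_f p n := by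
  unfold M1_f
  have h : (p ∣ n + p) ↔ p ∣ n := by simp
  rw [M1_wl_per]
  simp only [h]

lemma M1_sum_wl (p : ℕ) (hp : 2 ≤ p) : ∑ n ∈ range p, wl p n = p := by
  obtain ⟨q, rfl⟩ : ∃ q, p = q + 1 := ⟨p - 1, by omega⟩
  rw [Finset.sum_range_succ']
  have h0 : wl (q + 1) 0 = ((q + 1 : ℕ) : ℝ) / (((q + 1 : ℕ) : ℝ) - 1) := by
    unfold wl; rw [if_pos (dvd_zero _)]
  have h1 : ∀ n ∈ range q, wl (q + 1) (n + 1) =
      ((q + 1 : ℕ) : ℝ) * (((q + 1 : ℕ) : ℝ) - 2) / (((q + 1 : ℕ) : ℝ) - 1) ^ 2 := by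
    intro n hn
    have hn' := Finset.mem_range.1 hn
    unfold wl
    rw [if_neg]
    intro h
    have := Nat.le_of_dvd (by omega) h
    omega
  rw [Finset.sum_congr rfl h1, h0, Finset.sum_const, Finset.card_range, nsmul_eq_mul]
  have hq : (q : ℝ) ≠ 0 := by
    have : q ≠ 0 := by omega
    exact_mod_cast this
  push_cast
  have e : ((q : ℝ) + 1 - 1) = q := by ring
  rw [e]
  field_simp
  ring

lemma M1_sum_small (p : ℕ) (hp : 2 ≤ p) :
    ∑ n ∈ range p, (if p ∣ n then wl p n else 0) = (p : ℝ) / (p - 1) := by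
  rw [Finset.sum_eq_single_of_mem 0 (Finset.mem_range.2 (by omega))]
  · rw [if_pos (dvd_zero _)]
    unfold wl
    rw [if_pos (dvd_zero _)]
  · intro n hn h0
    have hn' := Finset.mem_range.1 hn
    rw [if_neg]
    intro h
    have := Nat.le_of_dvd (by omega) h
    omega

lemma M1_prod_f (n : ℕ) : ∏ p ∈ pr, M1_f p n = if 210 ∣ n then ww n else 0 := by
  have h210 : (210 ∣ n) ↔ (2 ∣ n ∧ 3 ∣ n ∧ 5 ∣ n ∧ 7 ∣ n) := by omega
  by_cases h : 210 ∣ n
  · rw [if_pos h]
    obtain ⟨h2, h3, h5, h7⟩ := h210.1 h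
    unfold ww
    refine Finset.prod_congr rfl fun p hp => ?_
    unfold M1_f
    by_cases hp7 : p ≤ 7
    · rw [if_pos hp7, if_pos]
      rw [pr_eq] at hp
      simp only [Finset.mem_insert, Finset.mem_singleton] at hp
      rcases hp with rfl | rfl | rfl | rfl | rfl | rfl | rfl | rfl | rfl | rfl | rfl | rfl | rfl |
        rfl | rfl
      · exact h2
      · exact h3
      · exact h5
      · exact h7
      all_goals omega
    · rw [if_neg hp7]
  · rw [if_neg h]
    have : ∃ p ∈ pr, p ≤ 7 ∧ ¬ p ∣ n := by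
      by_contra hcon
      apply h
      rw [h210]
      have hh : ∀ p ∈ pr, p ≤ 7 → p ∣ n := by
        intro p hp hp7
        by_contra hd
        exact hcon ⟨p, hp, hp7, hd⟩
      exact ⟨hh 2 (by rw [pr_eq]; simp) (by norm_num), hh 3 (by rw [pr_eq]; simp) (by norm_num),
        hh 5 (by rw [pr_eq]; simp) (by norm_num), hh 7 (by rw [pr_eq]; simp) (by norm_num)⟩
    obtain ⟨p, hp, hp7, hd⟩ := this
    refine Finset.prod_eq_zero hp ?_
    unfold M1_f
    rw [if_pos hp7, if_neg hd]

lemma M1_two_le {p : ℕ} (hp : p ∈ pr) : 2 ≤ p := by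
  have : p.Prime := by
    unfold pr at hp
    exact (Finset.mem_filter.1 hp).2
  exact this.two_le

lemma M1_card : (((range QQ).filter (fun n => 210 ∣ n)).card : ℝ) = QQ / 210 := by
  have h210 : 210 ∣ QQ := by decide +kernel
  obtain ⟨m, hm⟩ := h210
  rw [hm]
  have : ((range (210 * m)).filter (fun n => 210 ∣ n)) = (range m).image (fun k => 210 * k) := by
    ext n
    simp only [Finset.mem_filter, Finset.mem_range, Finset.mem_image]
    constructor
    · rintro ⟨h1, k, rfl⟩
      exact ⟨k, by omega, rfl⟩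
    · rintro ⟨k, hk, rfl⟩
      exact ⟨by omega, k, rfl⟩
  rw [this, Finset.card_image_of_injective _ (fun a b h => by
    have : 210 * a = 210 * b := h
    omega), Finset.card_range]
  push_cast
  ring

theorem prf_M1 (h1 : D_CRT) : D_M1 := by
  have hcrt := h1 pr (fun p hp => by unfold pr at hp; exact (Finset.mem_filter.1 hp).2) M1_f
    (fun p _ n => M1_f_per p n)
  have hsum : ∑ n ∈ (range QQ).filter (fun n => 210 ∣ n), ww n = QQ / 48 := by
    rw [Finset.sum_filter]
    have h2 : ∑ n ∈ range QQ, (if 210 ∣ n then ww n else 0) = ∑ n ∈ range QQ, ∏ p ∈ pr, M1_f p n :=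
      Finset.sum_congr rfl fun n _ => (M1_prod_f n).symm
    rw [h2]
    refine hcrt.trans ?_
    have h3 : ∀ p ∈ pr, ∑ n ∈ range p, M1_f p n =
        (p : ℝ) * (if p ≤ 7 then 1 / ((p : ℝ) - 1) else 1) := by
      intro p hp
      have hp2 := M1_two_le hp
      unfold M1_f
      by_cases hp7 : p ≤ 7
      · simp only [if_pos hp7]
        rw [M1_sum_small p hp2]
        ring
      · simp only [if_neg hp7]
        rw [M1_sum_wl p hp2, mul_one]
    rw [Finset.prod_congr rfl h3, Finset.prod_mul_distrib]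
    have h5 : ∏ p ∈ pr, (if p ≤ 7 then 1 / ((p : ℝ) - 1) else 1) = 1 / 48 := by
      rw [← Finset.prod_filter]
      have h4 : pr.filter (fun p => p ≤ 7) = {2, 3, 5, 7} := by decide +kernel
      rw [h4, Finset.prod_insert (by decide), Finset.prod_insert (by decide),
        Finset.prod_insert (by decide), Finset.prod_singleton]
      norm_num
    have h6 : ∏ p ∈ pr, (p : ℝ) = (QQ : ℝ) := (Nat.cast_prod (fun p => p) pr).symm
    rw [h5, h6]
    exact mul_one_div _ _
  rw [D_M1, Finset.sum_sub_distrib, hsum, Finset.sum_const, nsmul_eq_mul, M1_card]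
  ring

end MPb51559.DN
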