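import Pool.Agent.Work.MP_b51559_nt.DN.Stmts

set_option autoImplicit false

/-!
# Block DN, item M2: the 36th moment off the multiples of 210. Author helper78.
-/

namespace MPb51559.DN

open Finset
open scoped Classical

theorem M2_prime {p : ℕ} (hp : p ∈ pr) : p.Prime := (mem_filter.1 hp).2

theorem M2_dvd (p n : ℕ) : p ∣ n + p ↔ p ∣ n := by
  rw [Nat.dvd_add_self_right]

theorem M2_wl_per (p n : ℕ) : wl p (n + p) = wl p n := by
  unfold wl
  simp only [M2_dvd]

theorem M2_sum (p : ℕ) (hp : 0 < p) (A B : ℝ) :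
    ∑ n ∈ range p, (if p ∣ n then A else B) = A + ((p : ℝ) - 1) * B := by
  obtain ⟨k, rfl⟩ : ∃ k, p = k + 1 := ⟨p - 1, by omega⟩
  rw [sum_range_succ', if_pos (dvd_zero _)]
  have h : ∑ n ∈ range k, (if k + 1 ∣ n + 1 then A else B) = ∑ _n ∈ range k, B := by
    refine sum_congr rfl fun n hn => ?_
    rw [if_neg]
    intro h
    have h1 := Nat.le_of_dvd (Nat.succ_pos n) h
    have h2 := mem_range.1 hn
    omega
  rw [h, sum_const, card_range, nsmul_eq_mul]
  push_cast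
  ring

theorem M2_wl_pow (p n : ℕ) : wl p n ^ 36 =
    if p ∣ n then ((p : ℝ) / (p - 1)) ^ 36 else ((p : ℝ) * (p - 2) / (p - 1) ^ 2) ^ 36 := by
  unfold wl
  split_ifs <;> rfl

theorem M2_mR (p : ℕ) (hp : 0 < p) : ∑ n ∈ range p, wl p n ^ 36 = mR p := by
  simp only [M2_wl_pow]
  rw [M2_sum p hp]
  rfl

theorem M2_all (h1 : D_CRT) : ∑ n ∈ range QQ, ww n ^ 36 = ∏ p ∈ pr, mR p := by
  have h := h1 pr (fun p hp => M2_prime hp) (fun p n => wl p n ^ 36)
    (fun p _ n => by simp only [M2_wl_per])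
  have e : (∏ p ∈ pr, p) = QQ := rfl
  rw [e] at h
  have e1 : ∑ n ∈ range QQ, ww n ^ 36 = ∑ n ∈ range QQ, ∏ p ∈ pr, wl p n ^ 36 := by
    refine sum_congr rfl fun n _ => ?_
    unfold ww
    rw [prod_pow]
  rw [e1, h]
  exact prod_congr rfl fun p hp => M2_mR p (M2_prime hp).pos

/-- the local factor for the multiples of 210 -/
noncomputable def M2_f (p n : ℕ) : ℝ :=
  if p ≤ 7 then (if p ∣ n then ((p : ℝ) / (p - 1)) ^ 36 else 0) else wl p n ^ 36

theorem M2_dvd210 {p : ℕ} (hp : p ∈ pr) (h7 : p ≤ 7) : p ∣ 210 := by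
  have h := M2_prime hp
  interval_cases p
  · norm_num at h
  · norm_num at h
  · norm_num
  · norm_num
  · norm_num at h
  · norm_num
  · norm_num at h
  · norm_num

theorem M2_mem {p : ℕ} (h : p = 2 ∨ p = 3 ∨ p = 5 ∨ p = 7) : p ∈ pr := by
  unfold pr
  rw [mem_filter, mem_range]
  rcases h with rfl | rfl | rfl | rfl <;> norm_num

theorem M2_prod (n : ℕ) : ∏ p ∈ pr, M2_f p n = if 210 ∣ n then ww n ^ 36 else 0 := by
  by_cases h : 210 ∣ n
  · rw [if_pos h]
    unfold ww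
    rw [← prod_pow]
    refine prod_congr rfl fun p hp => ?_
    unfold M2_f
    by_cases h7 : p ≤ 7
    · have hd : p ∣ n := (M2_dvd210 hp h7).trans h
      rw [if_pos h7, if_pos hd, M2_wl_pow, if_pos hd]
    · rw [if_neg h7]
  · rw [if_neg h]
    have h2 : ∃ p, (p = 2 ∨ p = 3 ∨ p = 5 ∨ p = 7) ∧ ¬ p ∣ n := by
      by_contra hc
      push Not at hc
      have a2 := hc 2 (by norm_num)
      have a3 := hc 3 (by norm_num)
      have a5 := hc 5 (by norm_num)
      have a7 := hc 7 (by norm_num)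
      omega
    obtain ⟨p, hp, hpn⟩ := h2
    refine prod_eq_zero (M2_mem hp) ?_
    unfold M2_f
    rw [if_pos (by omega), if_neg hpn]

theorem M2_f_sum {p : ℕ} (hp : p ∈ pr) : ∑ n ∈ range p, M2_f p n =
    if p ≤ 7 then ((p : ℝ) / (p - 1)) ^ 36 else mR p := by
  have hpos := (M2_prime hp).pos
  by_cases h7 : p ≤ 7
  · rw [if_pos h7]
    have e : ∀ n, M2_f p n = if p ∣ n then ((p : ℝ) / (p - 1)) ^ 36 else 0 := by
      intro n
      unfold M2_f
      rw [if_pos h7]
    simp only [e]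
    rw [M2_sum p hpos, mul_zero, add_zero]
  · rw [if_neg h7]
    have e : ∀ n, M2_f p n = wl p n ^ 36 := by
      intro n
      unfold M2_f
      rw [if_neg h7]
    simp only [e]
    exact M2_mR p hpos

theorem M2_mult (h1 : D_CRT) : ∑ n ∈ range QQ, (if 210 ∣ n then ww n ^ 36 else 0) =
    (∏ p ∈ pr.filter (fun p => p ≤ 7), ((p : ℝ) / (p - 1)) ^ 36) *
      ∏ p ∈ pr.filter (fun p => ¬ p ≤ 7), mR p := by
  have h := h1 pr (fun p hp => M2_prime hp) M2_f (fun p _ n => by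
    unfold M2_f
    simp only [M2_wl_per, M2_dvd])
  have e : (∏ p ∈ pr, p) = QQ := rfl
  rw [e] at h
  simp only [M2_prod] at h
  rw [h, prod_congr rfl fun p hp => M2_f_sum hp, prod_ite]

theorem prf_M2 (h1 : D_CRT) : D_M2 := by
  unfold D_M2
  rw [← M2_all h1, ← M2_mult h1, ← sum_filter, eq_sub_iff_add_eq', sum_filter_add_sum_filter_not]

end MPb51559.DN
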