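import Pool.Agent.Work.MP_b51559_nt.DN.Stmts

/-!
Block DN, item M3: the numerical bound for the Rankin term.
-/

set_option autoImplicit false

namespace MPb51559.DN

open Finset

theorem M3_small : pr.filter (fun p => p ≤ 7) = {2, 3, 5, 7} := by
  ext p
  simp only [mem_filter, pr_eq, mem_insert, mem_singleton]
  omega

theorem M3_large : pr.filter (fun p => ¬ p ≤ 7) = {11, 13, 17, 19, 23, 29, 31, 37, 41, 43, 47} := by
  ext p
  simp only [mem_filter, pr_eq, mem_insert, mem_singleton]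
  omega

theorem M3_QQ : QQ = 614889782588491410 := by
  unfold QQ
  rw [pr_eq]
  decide +kernel

theorem M3_split (f : ℕ → ℝ) : ∏ p ∈ pr, f p =
    (∏ p ∈ pr.filter (fun p => p ≤ 7), f p) * ∏ p ∈ pr.filter (fun p => ¬ p ≤ 7), f p :=
  (prod_filter_mul_prod_filter_not pr (fun p => p ≤ 7) f).symm

/-- the part of the primes up to 7 -/
noncomputable def M3_A : ℝ := (∏ p ∈ ({2, 3, 5, 7} : Finset ℕ), mR p) -
    ∏ p ∈ ({2, 3, 5, 7} : Finset ℕ), ((p : ℝ) / (p - 1)) ^ 36

/-- the part of the primes above 7 -/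
noncomputable def M3_B : ℝ :=
  ∏ p ∈ ({11, 13, 17, 19, 23, 29, 31, 37, 41, 43, 47} : Finset ℕ), mR p

theorem M3_A_le : 0 ≤ M3_A ∧ M3_A ≤ 1021797876748500000000 := by
  unfold M3_A
  rw [prod_insert (by decide), prod_insert (by decide), prod_insert (by decide), prod_singleton,
    prod_insert (by decide), prod_insert (by decide), prod_insert (by decide), prod_singleton]
  unfold mR
  norm_num

theorem M3_B_le : 0 ≤ M3_B ∧ M3_B ≤ 43078000000000000 := by
  unfold M3_B
  rw [prod_insert (by decide), prod_insert (by decide), prod_insert (by decide),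
    prod_insert (by decide), prod_insert (by decide), prod_insert (by decide),
    prod_insert (by decide), prod_insert (by decide), prod_insert (by decide),
    prod_insert (by decide), prod_singleton]
  unfold mR
  norm_num

theorem M3_cR (h1 : D_TAU) : 0 ≤ cR ∧ cR ≤ (35 : ℝ) ^ 35 / (36 : ℝ) ^ 36 / 4.2418 ^ 35 := by
  unfold cR
  have ht : (0 : ℝ) < tau := by linarith [h1.1]
  have hp : (4.2418 : ℝ) ^ 35 ≤ tau ^ 35 := pow_le_pow_left₀ (by norm_num) h1.1.le 35
  refine ⟨by positivity, ?_⟩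
  exact div_le_div_of_nonneg_left (by positivity) (by positivity) hp

theorem prf_M3 (h1 : D_TAU) : D_M3 := by
  unfold D_M3
  have e : (∏ p ∈ pr, mR p) - (∏ p ∈ pr.filter (fun p => p ≤ 7), ((p : ℝ) / (p - 1)) ^ 36) *
      ∏ p ∈ pr.filter (fun p => ¬ p ≤ 7), mR p = M3_A * M3_B := by
    rw [M3_split mR, M3_small, M3_large]
    unfold M3_A M3_B
    ring
  rw [e, M3_QQ]
  obtain ⟨a0, a1⟩ := M3_A_le
  obtain ⟨b0, b1⟩ := M3_B_le
  obtain ⟨c0, c1⟩ := M3_cR h1
  calc cR * (M3_A * M3_B)
      ≤ ((35 : ℝ) ^ 35 / (36 : ℝ) ^ 36 / 4.2418 ^ 35) *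
        (1021797876748500000000 * 43078000000000000) := by
        apply mul_le_mul c1 _ (mul_nonneg a0 b0) (by positivity)
        exact mul_le_mul a1 b1 b0 (by norm_num)
    _ ≤ 82 / 1000000 * ((614889782588491410 : ℕ) : ℝ) := by norm_num

end MPb51559.DN
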