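import Pool.Agent.Work.MP_b51559_nt.DN.Stmts

set_option autoImplicit false

/-!
# Block DN: item MEAN
-/

namespace MPb51559.DN

open Finset
open scoped Classical

theorem MEAN_QQ_pos : 0 < QQ := by
  unfold QQ
  refine Finset.prod_pos fun p hp => ?_
  have h : p.Prime := by
    unfold pr at hp
    exact (Finset.mem_filter.1 hp).2
  exact h.pos

theorem MEAN_ww_per (n : ℕ) : ww (n + QQ) = ww n := by
  unfold ww
  refine Finset.prod_congr rfl fun p hp => ?_
  have h1 : p ∣ QQ := by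
    unfold QQ
    exact Finset.dvd_prod_of_mem (fun p => p) hp
  have h2 : p ∣ n + QQ ↔ p ∣ n := (Nat.dvd_add_iff_left h1).symm
  unfold wl
  by_cases h : p ∣ n
  · rw [if_pos h, if_pos (h2.2 h)]
  · rw [if_neg h, if_neg (fun h' => h (h2.1 h'))]

theorem prf_MEAN (h1 : D_PER) (h2 : D_WB) (h3 : D_G210) (h4 : D_TAU) (h5 : D_RAN) (h6 : D_M1)
    (h7 : D_M2) (h8 : D_M3) : D_MEAN := by
  intro N
  have hq : 0 < QQ := MEAN_QQ_pos
  have hqr : (0 : ℝ) < (QQ : ℝ) := by exact_mod_cast hq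
  have htau : 0 < tau := by
    have := h4.1
    norm_num at this
    linarith
  set F : ℕ → ℝ := fun n => max (ww n - tau) 0 with hF
  have hF0 : ∀ n, 0 ≤ F n := fun n => le_max_right _ _
  have hFp : ∀ n, F (n + QQ) = F n := by
    intro n
    simp only [hF]
    rw [MEAN_ww_per]
  have hF8 : ∀ n, F n ≤ 8 := by
    intro n
    have := (h2 n).2
    exact max_le (by linarith) (by norm_num)
  have hS8 : ∑ n ∈ range QQ, F n ≤ 8 * QQ := by
    have := Finset.sum_le_card_nsmul (range QQ) F 8 fun n _ => hF8 n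
    rw [Finset.card_range, nsmul_eq_mul] at this
    linarith
  have hA : ∑ n ∈ (range QQ).filter (fun n => 210 ∣ n), F n = QQ * (1 / 48 - tau / 210) := by
    rw [← h6]
    refine Finset.sum_congr rfl fun n hn => ?_
    have := h3 n (Finset.mem_filter.1 hn).2
    simp only [hF]
    exact max_eq_left (by linarith)
  have hB : ∑ n ∈ (range QQ).filter (fun n => ¬ 210 ∣ n), F n ≤ 82 / 1000000 * QQ := by
    have hB1 : ∑ n ∈ (range QQ).filter (fun n => ¬ 210 ∣ n), F n ≤
        ∑ n ∈ (range QQ).filter (fun n => ¬ 210 ∣ n), cR * ww n ^ 36 :=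
      Finset.sum_le_sum fun n _ => h5 (ww n) (h2 n).1
    rw [← Finset.mul_sum, h7] at hB1
    exact hB1.trans h8
  have hS : ∑ n ∈ range QQ, F n ≤ QQ * (1 / 48 - tau / 210 + 82 / 1000000) := by
    rw [← Finset.sum_filter_add_sum_filter_not (range QQ) (fun n => 210 ∣ n), hA]
    linarith
  have hper := (abs_le.1 (h1 QQ hq F hF0 hFp N)).2
  have hN : (0 : ℝ) ≤ (N : ℝ) / QQ := div_nonneg (Nat.cast_nonneg _) hqr.le
  have h9 : (N : ℝ) / QQ * ∑ n ∈ range QQ, F n ≤
      (N : ℝ) / QQ * (QQ * (1 / 48 - tau / 210 + 82 / 1000000)) :=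
    mul_le_mul_of_nonneg_left hS hN
  have h10 : (N : ℝ) / QQ * (QQ * (1 / 48 - tau / 210 + 82 / 1000000)) =
      N * (1 / 48 - tau / 210 + 82 / 1000000) := by
    field_simp
  rw [h10] at h9
  linarith

end MPb51559.DN
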