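import Pool.Agent.Work.MP_b51559_nt.DN.Stmts

set_option autoImplicit false

/-!
# Block DN: item PAIR
-/

namespace MPb51559.DN

open Finset
open scoped Classical

theorem PAIR_WW (P : Set ℕ) (N : ℕ) : (N : ℝ) * WW P N = ∑ h ∈ PP P N, ww h := by
  unfold WW
  rcases Nat.eq_zero_or_pos N with h | h
  · subst h
    have : PP P 0 = ∅ := by
      unfold PP
      rw [Icc_eq_empty (by norm_num), filter_empty]
    rw [this]
    simp
  · have : (N : ℝ) ≠ 0 := by exact_mod_cast h.ne'
    field_simp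

theorem PAIR_BB {M x : ℕ} (h : x ∈ BB M) : 1 ≤ x ∧ x ≤ M ∧ x.Coprime QQ := by
  unfold BB at h
  rw [mem_filter, mem_Icc] at h
  exact ⟨h.1.1, h.1.2, h.2⟩

theorem PAIR_card (M N : ℕ) (P : Set ℕ) :
    ((BB M ×ˢ BB N).filter (fun z => RR P z.1 z.2)).card ≤
      (∑ h ∈ PP P N, ((BB M).filter (fun x => (x + h).Coprime QQ)).card) + M ^ 2 := by
  have hsub : (BB M ×ˢ BB N).filter (fun z => RR P z.1 z.2) ⊆
      ((PP P N).biUnion fun h => ((BB M).filter (fun x => (x + h).Coprime QQ)).image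
        (fun x => (x, x + h))) ∪ (Icc 1 M ×ˢ Icc 1 M) := by
    rintro ⟨x, y⟩ hz
    rw [mem_filter, mem_product] at hz
    obtain ⟨⟨hx, hy⟩, hr⟩ := hz
    simp only at hx hy hr
    obtain ⟨hx1, hx2, hx3⟩ := PAIR_BB hx
    obtain ⟨hy1, hy2, hy3⟩ := PAIR_BB hy
    rw [mem_union]
    by_cases hxy : x < y
    · left
      rw [mem_biUnion]
      refine ⟨y - x, ?_, ?_⟩
      · unfold PP
        rw [mem_filter, mem_Icc]
        refine ⟨by omega, ?_⟩
        rcases hr with h | h | h
        · omega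
        · exact h.2
        · omega
      · rw [mem_image]
        refine ⟨x, ?_, ?_⟩
        · rw [mem_filter]
          refine ⟨hx, ?_⟩
          rw [Nat.add_sub_cancel' hxy.le]
          exact hy3
        · rw [Nat.add_sub_cancel' hxy.le]
    · right
      rw [mem_product, mem_Icc, mem_Icc]
      simp only
      omega
  refine (card_le_card hsub).trans ((card_union_le _ _).trans ?_)
  refine Nat.add_le_add ?_ ?_
  · refine card_biUnion_le.trans (sum_le_sum fun h _ => card_image_le)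
  · rw [card_product, Nat.card_Icc, sq]
    simp

theorem prf_PAIR (h1 : D_C2) : D_PAIR := by
  intro P M N
  have e1 : (((BB M ×ˢ BB N).filter (fun z => RR P z.1 z.2)).card : ℝ) ≤
      (∑ h ∈ PP P N, (((BB M).filter (fun x => (x + h).Coprime QQ)).card : ℝ)) + (M : ℝ) ^ 2 := by
    exact_mod_cast PAIR_card M N P
  have e2 : ∑ h ∈ PP P N, (((BB M).filter (fun x => (x + h).Coprime QQ)).card : ℝ) ≤
      ∑ h ∈ PP P N, (dl ^ 2 * ww h * M + QQ) := sum_le_sum fun h _ => h1 h M
  have e3 : ∑ h ∈ PP P N, (dl ^ 2 * ww h * M + QQ) =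
      dl ^ 2 * M * N * WW P N + (PP P N).card * QQ := by
    rw [sum_add_distrib, sum_const, nsmul_eq_mul, mul_assoc (dl ^ 2 * (M : ℝ)) (N : ℝ),
      PAIR_WW, mul_sum]
    congr 1
    refine sum_congr rfl fun h _ => ?_
    ring
  have e4 : ((PP P N).card : ℝ) ≤ N := by
    have : (PP P N).card ≤ (Icc 1 N).card := card_le_card (filter_subset _ _)
    rw [Nat.card_Icc] at this
    have h5 : (PP P N).card ≤ N := by omega
    exact_mod_cast h5
  have e5 : ((PP P N).card : ℝ) * QQ ≤ QQ * N := by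
    rw [mul_comm]
    exact mul_le_mul_of_nonneg_left e4 (Nat.cast_nonneg _)
  linarith

end MPb51559.DN
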