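import Pool.Agent.Work.MP_b51559_nt.DN.Stmts

set_option autoImplicit false

/-!
# Block DN, item PRO: the pairs as a probability
-/

namespace MPb51559.DN

open Finset
open scoped Classical

theorem PRO_fac {p : ℕ} (hp : p ∈ pr) : 0 < 1 - 1 / (p : ℝ) ∧ 1 - 1 / (p : ℝ) ≤ 1 := by
  have h1 : p.Prime := (Finset.mem_filter.1 hp).2
  have h2 : (2 : ℝ) ≤ p := by exact_mod_cast h1.two_le
  have h3 : 1 / (p : ℝ) ≤ 1 / 2 := one_div_le_one_div_of_le (by norm_num) h2
  have h4 : 0 ≤ 1 / (p : ℝ) := by positivity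
  constructor <;> linarith

theorem PRO_dl_pos : 0 < dl := by
  unfold dl
  exact Finset.prod_pos fun p hp => (PRO_fac hp).1

theorem PRO_dl_le : dl ≤ 1 := by
  unfold dl
  exact Finset.prod_le_one (fun p hp => (PRO_fac hp).1.le) fun p hp => (PRO_fac hp).2

theorem PRO_WW (h3 : D_WB) (P : Set ℕ) (N : ℕ) (hN : 0 < N) : 0 ≤ WW P N ∧ WW P N ≤ 8 := by
  have hN' : (0 : ℝ) < N := by exact_mod_cast hN
  unfold WW
  constructor
  · exact div_nonneg (Finset.sum_nonneg fun h _ => (h3 h).1) hN'.le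
  · rw [div_le_iff₀ hN']
    have h4 : ∑ h ∈ PP P N, ww h ≤ (PP P N).card • (8 : ℝ) :=
      Finset.sum_le_card_nsmul _ _ _ fun h _ => (h3 h).2
    have h5 : (PP P N).card ≤ N := by
      have h6 := Finset.card_filter_le (Icc 1 N) (fun h => h ∈ P)
      rw [Nat.card_Icc] at h6
      unfold PP
      omega
    have h6 : ((PP P N).card : ℝ) ≤ N := by exact_mod_cast h5
    rw [nsmul_eq_mul] at h4
    linarith

theorem prf_PRO (h1 : D_PAIR) (h2 : D_CB) (h3 : D_WB) : D_PRO := by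
  intro η₀ hη₀
  obtain ⟨η, hη, hη1, hηη⟩ : ∃ η : ℝ, 0 < η ∧ η ≤ 1 ∧ η ≤ η₀ :=
    ⟨min η₀ 1, lt_min hη₀ one_pos, min_le_right _ _, min_le_left _ _⟩
  have hd := PRO_dl_pos
  have hd1 := PRO_dl_le
  have hQ : (0 : ℝ) ≤ (QQ : ℝ) := Nat.cast_nonneg _
  obtain ⟨A, hA⟩ := exists_nat_ge ((QQ : ℝ) / (η / 40 * dl))
  obtain ⟨B, hB⟩ := exists_nat_ge ((QQ : ℝ) / (η / 4 * dl ^ 2))
  obtain ⟨C, hC⟩ := exists_nat_ge (1 / (η / 4 * dl ^ 2))
  have hd2 : 0 < dl ^ 2 := by positivity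
  have hθd : 0 < η / 40 * dl := by positivity
  have hηd : 0 < η / 4 * dl ^ 2 := by positivity
  refine ⟨A + B + 1, C + 1, fun P M N hM hN => ?_⟩
  have hMr : ((A : ℝ) + B + 1) ≤ M := by exact_mod_cast hM
  have hNr : ((C : ℝ) + 1) * M ≤ N := by exact_mod_cast hN
  have hA0 : (0 : ℝ) ≤ A := Nat.cast_nonneg _
  have hB0 : (0 : ℝ) ≤ B := Nat.cast_nonneg _
  have hC0 : (0 : ℝ) ≤ C := Nat.cast_nonneg _
  have hM1 : (1 : ℝ) ≤ M := by linarith
  have hMN : (M : ℝ) ≤ N := by nlinarith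
  have hN1 : (1 : ℝ) ≤ N := hM1.trans hMN
  have hNpos : 0 < N := by
    have : (0 : ℝ) < N := by linarith
    exact_mod_cast this
  have q1 : (QQ : ℝ) ≤ η / 40 * dl * M := by
    rw [div_le_iff₀ hθd] at hA
    nlinarith
  have q2 : (QQ : ℝ) ≤ η / 40 * dl * N := by
    refine q1.trans ?_
    exact mul_le_mul_of_nonneg_left hMN hθd.le
  have q3 : (QQ : ℝ) ≤ η / 4 * dl ^ 2 * M := by
    rw [div_le_iff₀ hηd] at hB
    nlinarith
  have q4 : (M : ℝ) ≤ η / 4 * dl ^ 2 * N := by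
    rw [div_le_iff₀ hηd] at hC
    have h4 : (C : ℝ) * M ≤ N := by nlinarith
    have h5 : (M : ℝ) ≤ C * (η / 4 * dl ^ 2) * M := by nlinarith
    nlinarith
  have hθ : 0 < 1 - η / 40 := by linarith
  have ca : (1 - η / 40) * dl * M ≤ ((BB M).card : ℝ) := by
    have := (abs_le.1 (h2 M)).1
    nlinarith
  have cb : (1 - η / 40) * dl * N ≤ ((BB N).card : ℝ) := by
    have := (abs_le.1 (h2 N)).1
    nlinarith
  have pa : 0 < (1 - η / 40) * dl * M := by positivity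
  have pb : 0 < (1 - η / 40) * dl * N := by positivity
  obtain ⟨w0, w8⟩ := PRO_WW h3 P N hNpos
  refine ⟨?_, ?_, ?_⟩
  · have : (0 : ℝ) < ((BB M).card : ℝ) := lt_of_lt_of_le pa ca
    exact_mod_cast this
  · have : (0 : ℝ) < ((BB N).card : ℝ) := lt_of_lt_of_le pb cb
    exact_mod_cast this
  · refine (h1 P M N).trans ?_
    set W := WW P N with hW
    set S : ℝ := dl ^ 2 * M * N with hS
    have hS0 : 0 ≤ S := by positivity
    have e1 : (QQ : ℝ) * N ≤ η / 4 * S := by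
      have := mul_le_mul_of_nonneg_right q3 (by linarith : (0 : ℝ) ≤ N)
      rw [hS]
      linarith
    have e2 : (M : ℝ) ^ 2 ≤ η / 4 * S := by
      have := mul_le_mul_of_nonneg_right q4 (by linarith : (0 : ℝ) ≤ M)
      rw [hS]
      nlinarith
    have e3 : ((1 - η / 40) * dl * M) * ((1 - η / 40) * dl * N) ≤
        ((BB M).card : ℝ) * (BB N).card := mul_le_mul ca cb pb.le (pa.le.trans ca)
    have e4 : (1 - η / 40) ^ 2 * S ≤ ((BB M).card : ℝ) * (BB N).card := by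
      refine le_trans (le_of_eq ?_) e3
      rw [hS]
      ring
    have e5 : (W + η / 2) ≤ (W + η) * (1 - η / 40) ^ 2 := by
      nlinarith [mul_nonneg w0 (sq_nonneg (η / 40)), mul_nonneg hη.le (sq_nonneg (η / 40)),
        mul_nonneg hη.le (sub_nonneg.2 w8), mul_nonneg hη.le (sub_nonneg.2 hη1)]
    have e6 : (W + η / 2) * S ≤ (W + η) * (((BB M).card : ℝ) * (BB N).card) := by
      calc (W + η / 2) * S ≤ (W + η) * (1 - η / 40) ^ 2 * S :=
            mul_le_mul_of_nonneg_right e5 hS0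
        _ = (W + η) * ((1 - η / 40) ^ 2 * S) := by ring
        _ ≤ _ := mul_le_mul_of_nonneg_left e4 (by linarith)
    have e7 : (W + η) * (((BB M).card : ℝ) * (BB N).card) ≤
        (W + η₀) * (((BB M).card : ℝ) * (BB N).card) :=
      mul_le_mul_of_nonneg_right (by linarith) (by positivity)
    refine le_trans ?_ (e6.trans e7)
    have e8 : dl ^ 2 * (M : ℝ) * N * W = W * S := by
      rw [hS]
      ring
    rw [e8]
    linarith

end MPb51559.DN
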