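import Pool.Agent.Work.MP_b51559_nt.DN.Stmts

set_option autoImplicit false

/-!
# Block DN: the Rankin inequality
-/

namespace MPb51559.DN

theorem RAN_bern (u : ℝ) (hu : 0 ≤ u) : 36 * u - 35 ≤ u ^ 36 := by
  have h := one_add_mul_le_pow (a := u - 1) (by linarith) 36
  have e1 : (1 + (u - 1)) = u := by ring
  rw [e1] at h
  push_cast at h
  linarith

theorem RAN_resc (a u : ℝ) (ha : 0 < a) :
    (35 : ℝ) ^ 35 / (36 : ℝ) ^ 36 / a ^ 35 * (36 / 35 * a * u) ^ 36 = a / 35 * u ^ 36 := by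
  have ha' : a ≠ 0 := ha.ne'
  rw [mul_pow, mul_pow, div_pow]
  have e1 : a ^ 36 = a ^ 35 * a := pow_succ a 35
  have e2 : (35 : ℝ) ^ 36 = 35 ^ 35 * 35 := pow_succ 35 35
  rw [e1, e2]
  have h1 : a ^ 35 ≠ 0 := pow_ne_zero _ ha'
  have h2 : (35 : ℝ) ^ 35 ≠ 0 := pow_ne_zero _ (by norm_num)
  have h3 : (36 : ℝ) ^ 36 ≠ 0 := pow_ne_zero _ (by norm_num)
  generalize a ^ 35 = A at *
  generalize (35 : ℝ) ^ 35 = B at *
  generalize (36 : ℝ) ^ 36 = C at *
  field_simp

theorem prf_RAN (h1 : D_TAU) : D_RAN := by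
  intro t ht
  have hτ : 0 < tau := by
    have := h1.1
    linarith
  have hτ' : tau ≠ 0 := hτ.ne'
  have key := RAN_resc tau (35 * t / (36 * tau)) hτ
  have e0 : 36 / 35 * tau * (35 * t / (36 * tau)) = t := by
    field_simp
  rw [e0] at key
  have hc : cR * t ^ 36 = tau / 35 * (35 * t / (36 * tau)) ^ 36 := key
  rw [hc]
  have hu : 0 ≤ 35 * t / (36 * tau) := by positivity
  have hB := RAN_bern _ hu
  have hB2 := mul_le_mul_of_nonneg_left hB (by positivity : 0 ≤ tau / 35)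
  have e1 : tau / 35 * (36 * (35 * t / (36 * tau)) - 35) = t - tau := by
    field_simp
  refine max_le ?_ ?_
  · rw [← e1]
    exact hB2
  · positivity

end MPb51559.DN
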