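import Pool.Agent.Work.MP_b51559_nt.DN.Stmts

set_option autoImplicit false

/-!
# Block DN, item SEP: random integers at separated scales
-/

namespace MPb51559.DN

open Finset
open scoped Classical

theorem SEP_card (r : ℕ) :
    2 * (univ.filter (fun z : Fin r × Fin r => z.1 < z.2)).card = r * r - r := by
  have h1 : (univ.filter (fun z : Fin r × Fin r => z.1 < z.2)).card =
      (univ.filter (fun z : Fin r × Fin r => z.2 < z.1)).card := by
    refine Finset.card_bij (fun z _ => z.swap) ?_ ?_ ?_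
    · intro z hz
      simpa using hz
    · intro z _ z' _ h
      exact Prod.swap_injective h
    · intro z hz
      exact ⟨z.swap, by simpa using hz, by simp⟩
  have h2 : (univ : Finset (Fin r)).offDiag =
      univ.filter (fun z : Fin r × Fin r => z.1 < z.2) ∪
        univ.filter (fun z : Fin r × Fin r => z.2 < z.1) := by
    ext z
    simp only [mem_offDiag, mem_univ, true_and, mem_union, mem_filter]
    exact ⟨fun h => lt_or_gt_of_ne h, fun h => h.elim (fun h => h.ne) (fun h => h.ne')⟩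
  have h3 : Disjoint (univ.filter (fun z : Fin r × Fin r => z.1 < z.2))
      (univ.filter (fun z : Fin r × Fin r => z.2 < z.1)) := by
    rw [Finset.disjoint_left]
    intro z hz hz'
    simp only [mem_filter, mem_univ, true_and] at hz hz'
    exact lt_asymm hz hz'
  have h4 := (univ : Finset (Fin r)).offDiag_card
  rw [h2, card_union_of_disjoint h3, Finset.card_univ, Fintype.card_fin, ← h1] at h4
  omega

theorem SEP_BB {N H : ℕ} (h : N ≤ H) : BB N ⊆ BB H := by
  intro b hb
  unfold BB at hb ⊢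
  rw [mem_filter, mem_Icc] at hb ⊢
  exact ⟨⟨hb.1.1, hb.1.2.trans h⟩, hb.2⟩

theorem SEP_clique {H : ℕ} {P : Set ℕ} (hD : DefD P H) {r : ℕ} {N : Fin r → ℕ}
    (hN : ∀ j, N j ≤ H) {x : Fin r → ℕ} (hx : ∀ j, x j ∈ BB (N j)) (s : Finset (Fin r))
    (hs : s.card = 49) : ∃ i ∈ s, ∃ j ∈ s, i < j ∧ RR P (x i) (x j) := by
  by_cases hinj : Set.InjOn x s
  · obtain ⟨a, ha, b, hb, hab, hP⟩ := hD (s.image x) (by
      intro y hy
      obtain ⟨i, _, rfl⟩ := mem_image.1 hy
      exact SEP_BB (hN i) (hx i)) (by rw [card_image_of_injOn hinj, hs])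
    obtain ⟨i, hi, rfl⟩ := mem_image.1 ha
    obtain ⟨j, hj, rfl⟩ := mem_image.1 hb
    rcases lt_trichotomy i j with h | h | h
    · exact ⟨i, hi, j, hj, h, Or.inr (Or.inl ⟨hab, hP⟩)⟩
    · rw [h] at hab
      exact absurd hab (lt_irrefl _)
    · exact ⟨j, hj, i, hi, h, Or.inr (Or.inr ⟨hab, hP⟩)⟩
  · unfold Set.InjOn at hinj
    push Not at hinj
    obtain ⟨i, hi, j, hj, hxy, hne⟩ := hinj
    rcases lt_or_gt_of_ne hne with h | h
    · exact ⟨i, hi, j, hj, h, Or.inl hxy⟩
    · exact ⟨j, hj, i, hi, h, Or.inl hxy.symm⟩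

/-- SEP. -/
theorem prf_SEP (h1 : D_PRO) (h2 : D_TUR) (h3 : D_AVG) : D_SEP := by
  intro η hη
  obtain ⟨M0, C, hP⟩ := h1 (η / 2) (by linarith)
  obtain ⟨r, hr⟩ := exists_nat_gt (2 / η + 1)
  refine ⟨r, M0, C, fun H P hD N hN hC => ?_⟩
  by_contra hcon
  push Not at hcon
  have hA := h3 r (fun j => BB (N j)) (fun j => (hP P (N j) (C * N j) (hN j).1 le_rfl).1) (RR P)
    ((r : ℝ) ^ 2 / 96 - r / 2) (fun x hx => h2 r (fun i j => RR P (x i) (x j))
      (SEP_clique hD (fun j => (hN j).2) hx))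
  have hB : ∑ z ∈ univ.filter (fun z : Fin r × Fin r => z.1 < z.2),
      (((BB (N z.1) ×ˢ BB (N z.2)).filter (fun y => RR P y.1 y.2)).card : ℝ) /
        ((BB (N z.1)).card * (BB (N z.2)).card) ≤
      ∑ _z ∈ univ.filter (fun z : Fin r × Fin r => z.1 < z.2), (1 / 48 - η / 2) := by
    refine Finset.sum_le_sum fun z hz => ?_
    have hlt := (mem_filter.1 hz).2
    obtain ⟨p1, p2, p3⟩ := hP P (N z.1) (N z.2) (hN z.1).1 (hC z.1 z.2 hlt)
    have p1' : (0 : ℝ) < ((BB (N z.1)).card : ℝ) := by exact_mod_cast p1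
    have p2' : (0 : ℝ) < ((BB (N z.2)).card : ℝ) := by exact_mod_cast p2
    rw [div_le_iff₀ (mul_pos p1' p2')]
    refine p3.trans ?_
    refine mul_le_mul_of_nonneg_right ?_ (mul_pos p1' p2').le
    have := hcon z.2
    linarith
  have hAB := hA.trans hB
  rw [Finset.sum_const, nsmul_eq_mul] at hAB
  have hcard : 2 * ((univ.filter (fun z : Fin r × Fin r => z.1 < z.2)).card : ℝ) =
      (r : ℝ) * r - r := by
    have h5 := SEP_card r
    have h6 : r ≤ r * r := Nat.le_mul_self r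
    have h7 : ((2 * (univ.filter (fun z : Fin r × Fin r => z.1 < z.2)).card : ℕ) : ℝ) =
        ((r * r - r : ℕ) : ℝ) := by rw [h5]
    push_cast [Nat.cast_sub h6] at h7
    exact h7
  have hη2 : 2 < (r - 1 : ℝ) * η := by
    have h8 : 2 / η < (r : ℝ) - 1 := by linarith
    rwa [div_lt_iff₀ hη] at h8
  have hr0 : (0 : ℝ) < r := by
    have : 0 < 2 / η := by positivity
    linarith
  have hc2 : ((univ.filter (fun z : Fin r × Fin r => z.1 < z.2)).card : ℝ) =
      ((r : ℝ) * r - r) / 2 := by linarith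
  rw [hc2] at hAB
  nlinarith [mul_lt_mul_of_pos_left hη2 hr0]

end MPb51559.DN
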