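import Pool.Agent.Work.MP_b51559_nt.DN.Stmts

/-!
# Item TAU: the numerical value
-/

namespace MPb51559.DN

open Finset

lemma TAU_lo : ({2, 3, 5, 7, 11, 13, 17, 19, 23, 29, 31, 37, 41, 43, 47} : Finset ℕ).filter
    (fun p => p ≤ 7) = {2, 3, 5, 7} := by decide

lemma TAU_hi : ({2, 3, 5, 7, 11, 13, 17, 19, 23, 29, 31, 37, 41, 43, 47} : Finset ℕ).filter
    (fun p => ¬ p ≤ 7) = {11, 13, 17, 19, 23, 29, 31, 37, 41, 43, 47} := by decide

theorem prf_TAU : D_TAU := by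
  unfold D_TAU tau
  rw [pr_eq, TAU_lo, TAU_hi]
  norm_num [Finset.prod_insert]

end MPb51559.DN
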