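import Pool.Agent.Work.MP_b51559_nt.DN.Stmts

set_option autoImplicit false

/-! Block DN, item UNI: the uniform form. -/

namespace MPb51559.DN

open Finset
open scoped Classical

theorem prf_UNI (h1 : D_KEY) (h2 : D_COVER) : D_UNI := by
  obtain ⟨r, N0, C, hK⟩ := h1
  refine ⟨max N0 (max C 1), r, ?_⟩
  intro H P hP
  let S : Finset ℕ := (Icc (max N0 1) H).filter (fun N => 2109 * (PP P N).card < 10 * N)
  have hS : ∀ N, N ∈ S ↔ (max N0 1 ≤ N ∧ N ≤ H) ∧ 2109 * (PP P N).card < 10 * N := by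
    intro N
    simp only [S, mem_filter, mem_Icc]
  have hno : ¬ ∃ N : ℕ → ℕ, (∀ j < r, N j ∈ S) ∧
      ∀ j, j + 1 < r → max C 1 * N j ≤ N (j + 1) := by
    rintro ⟨N, hN1, hN2⟩
    obtain ⟨j, hj, hj2⟩ := hK H P hP N
      (fun j hj => by
        have h := (hS _).mp (hN1 j hj)
        exact ⟨le_trans (le_max_left _ _) h.1.1, h.1.2⟩)
      (fun j hj => le_trans (Nat.mul_le_mul_right _ (le_max_left _ _)) (hN2 j hj))
    have h := (hS _).mp (hN1 j hj)
    omega
  obtain ⟨T, hT1, hT2⟩ := h2 r (max C 1) S hno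
  refine ⟨T, hT1, ?_⟩
  intro N hN
  by_cases ha : 10 * N ≤ 2109 * (PP P N).card
  · exact Or.inl ha
  · by_cases hb : N ≤ max N0 (max C 1)
    · exact Or.inr (Or.inl hb)
    · have hb' : max N0 (max C 1) < N := not_le.mp hb
      have hNS : N ∈ S := (hS N).mpr ⟨⟨max_le
        (le_trans (le_max_left _ _) hb'.le)
        (le_trans (le_trans (le_max_right _ _) (le_max_right _ _)) hb'.le), hN⟩, not_le.mp ha⟩
      obtain ⟨t, ht, ht1, ht2⟩ := hT2 N hNS
      exact Or.inr (Or.inr ⟨t, ht, ht1,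
        le_trans ht2 (Nat.mul_le_mul_right _ (le_max_right _ _))⟩)

end MPb51559.DN
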