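import Pool.Agent.Work.MP_b51559_nt.DN.Stmts

set_option autoImplicit false

/-!
# Block DN, item WB: bounds for the weight
-/

namespace MPb51559.DN

open Finset
open scoped Classical

theorem WB_two (p : ℕ) (hp : p ∈ pr) : 2 ≤ p := (Finset.mem_filter.1 hp).2.two_le

theorem WB_wl (p h : ℕ) (hp : 2 ≤ p) : 0 ≤ wl p h ∧ wl p h ≤ (p : ℝ) / (p - 1) := by
  have h2 : (2 : ℝ) ≤ p := by exact_mod_cast hp
  have h1 : (0 : ℝ) < (p : ℝ) - 1 := by linarith
  unfold wl
  split_ifs with hd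
  · exact ⟨by positivity, le_rfl⟩
  · have h3 : (0 : ℝ) ≤ (p : ℝ) - 2 := by linarith
    refine ⟨by positivity, ?_⟩
    rw [div_le_div_iff₀ (by positivity) h1]
    have e : (p : ℝ) * (p - 1) ^ 2 - (p : ℝ) * (p - 2) * (p - 1) = p * (p - 1) := by ring
    have h4 : (0 : ℝ) ≤ (p : ℝ) * (p - 1) := by positivity
    linarith

theorem prf_WB : D_WB := by
  intro h
  unfold ww
  refine ⟨Finset.prod_nonneg fun p hp => (WB_wl p h (WB_two p hp)).1, ?_⟩
  refine (Finset.prod_le_prod (fun p hp => (WB_wl p h (WB_two p hp)).1)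
    (fun p hp => (WB_wl p h (WB_two p hp)).2)).trans ?_
  rw [pr_eq]
  simp only [Finset.prod_insert, Finset.mem_insert, Finset.mem_singleton, Finset.prod_singleton,
    Nat.reduceEqDiff, or_self, not_false_eq_true]
  norm_num

end MPb51559.DN
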