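import Pool.Agent.Work.MP_b51559_nt.DN.CRT
import Pool.Agent.Work.MP_b51559_nt.DN.PER
import Pool.Agent.Work.MP_b51559_nt.DN.WB
import Pool.Agent.Work.MP_b51559_nt.DN.CB
import Pool.Agent.Work.MP_b51559_nt.DN.C2
import Pool.Agent.Work.MP_b51559_nt.DN.PAIR
import Pool.Agent.Work.MP_b51559_nt.DN.PRO
import Pool.Agent.Work.MP_b51559_nt.DN.TUR
import Pool.Agent.Work.MP_b51559_nt.DN.AVG
import Pool.Agent.Work.MP_b51559_nt.DN.SEP
import Pool.Agent.Work.MP_b51559_nt.DN.TRU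
import Pool.Agent.Work.MP_b51559_nt.DN.G210
import Pool.Agent.Work.MP_b51559_nt.DN.TAU
import Pool.Agent.Work.MP_b51559_nt.DN.RAN
import Pool.Agent.Work.MP_b51559_nt.DN.M1
import Pool.Agent.Work.MP_b51559_nt.DN.M2
import Pool.Agent.Work.MP_b51559_nt.DN.M3
import Pool.Agent.Work.MP_b51559_nt.DN.MEAN
import Pool.Agent.Work.MP_b51559_nt.DN.DEN
import Pool.Agent.Work.MP_b51559_nt.DN.KEY
import Pool.Agent.Work.MP_b51559_nt.DN.LOW
import Pool.Agent.Work.MP_b51559_nt.DN.COVER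
import Pool.Agent.Work.MP_b51559_nt.DN.UNI
import Pool.Agent.Work.MP_b51559_nt.DN.HAR
import Pool.Agent.Work.MP_b51559_nt.DN.ABEL
import Pool.Agent.Work.MP_b51559_nt.DN.LOG

set_option autoImplicit false

/-!
# Block DN: assembly
-/

namespace MPb51559.DN

open Finset
open scoped Classical

theorem all_C2 : D_C2 := prf_C2 prf_CRT prf_PER
theorem all_PRO : D_PRO := prf_PRO (prf_PAIR all_C2) (prf_CB prf_CRT prf_PER) prf_WB
theorem all_SEP : D_SEP := prf_SEP all_PRO prf_TUR prf_AVG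
theorem all_MEAN : D_MEAN := prf_MEAN prf_PER prf_WB prf_G210 prf_TAU (prf_RAN prf_TAU)
  (prf_M1 prf_CRT) (prf_M2 prf_CRT) (prf_M3 prf_TAU)
theorem all_DEN : D_DEN := prf_DEN prf_TRU all_MEAN prf_TAU
theorem all_KEY : D_KEY := prf_KEY all_SEP all_DEN
theorem all_LOW : D_LOW := prf_LOW all_KEY
theorem all_UNI : D_UNI := prf_UNI all_KEY prf_COVER
theorem all_LOG : D_LOG := prf_LOG all_UNI prf_HAR prf_ABEL

theorem DefD_of_DefP {P : Set ℕ} {H : ℕ} (h : DefP P H) : DefD P H := by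
  intro K hK hc
  refine h K hc fun b hb => ?_
  have h1 := hK hb
  rw [BB, Finset.mem_filter, Finset.mem_Icc] at h1
  exact ⟨h1.1.1, h1.1.2, h1.2⟩

theorem DefP_of_DefD {P : Set ℕ} {H : ℕ} (h : DefD P H) : DefP P H := by
  intro K hc hK
  refine h K (fun b hb => ?_) hc
  rw [BB, Finset.mem_filter, Finset.mem_Icc]
  exact ⟨⟨(hK b hb).1, (hK b hb).2.1⟩, (hK b hb).2.2⟩

end MPb51559.DN
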