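import Pool.Agent.Work.MP_b51559_nt.DN.Stmts

set_option autoImplicit false

/-!
# Block DN: truncation of the weighted mean
-/

namespace MPb51559.DN

open Finset
open scoped Classical

theorem TRU_sum (P : Set ℕ) (N : ℕ) : (N : ℝ) * WW P N = ∑ h ∈ PP P N, ww h := by
  unfold WW
  rcases Nat.eq_zero_or_pos N with rfl | hN
  · have h0 : PP P 0 = ∅ := by
      unfold PP
      rw [Finset.Icc_eq_empty (by norm_num), Finset.filter_empty]
    rw [h0, Finset.sum_empty, zero_div, mul_zero]
  · have hN' : (N : ℝ) ≠ 0 := by exact_mod_cast hN.ne'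
    rw [mul_comm, div_mul_cancel₀ _ hN']

theorem prf_TRU : D_TRU := by
  intro P N
  rw [TRU_sum]
  have h1 : ∑ h ∈ PP P N, ww h ≤ ∑ h ∈ PP P N, (tau + max (ww h - tau) 0) := by
    refine Finset.sum_le_sum fun h _ => ?_
    have := le_max_left (ww h - tau) 0
    linarith
  refine h1.trans ?_
  rw [Finset.sum_add_distrib, Finset.sum_const, nsmul_eq_mul, mul_comm]
  refine add_le_add le_rfl ?_
  exact Finset.sum_le_sum_of_subset_of_nonneg (Finset.filter_subset _ _)
    fun h _ _ => le_max_right _ _

end MPb51559.DN
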