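import Pool.Agent.Work.MP_b51559_nt.DN.C2
import Pool.Agent.Work.MP_b51559_nt.DN.CB
import Pool.Agent.Work.MP_b51559_nt.DN.AVG
import Pool.Agent.Work.MP_b51559_nt.DN.COVER
import Pool.Agent.Work.MP_b51559_nt.DN.CRT
import Pool.Agent.Work.MP_b51559_nt.DN.DEN
import Pool.Agent.Work.MP_b51559_nt.DN.G210
import Pool.Agent.Work.MP_b51559_nt.DN.KEY
import Pool.Agent.Work.MP_b51559_nt.DN.M1
import Pool.Agent.Work.MP_b51559_nt.DN.M2
import Pool.Agent.Work.MP_b51559_nt.DN.M3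
import Pool.Agent.Work.MP_b51559_nt.DN.MEAN
import Pool.Agent.Work.MP_b51559_nt.DN.PAIR
import Pool.Agent.Work.MP_b51559_nt.DN.PER
import Pool.Agent.Work.MP_b51559_nt.DN.PRO
import Pool.Agent.Work.MP_b51559_nt.DN.RAN
import Pool.Agent.Work.MP_b51559_nt.DN.SEP
import Pool.Agent.Work.MP_b51559_nt.DN.TAU
import Pool.Agent.Work.MP_b51559_nt.DN.TRU
import Pool.Agent.Work.MP_b51559_nt.DN.TUR
import Pool.Agent.Work.MP_b51559_nt.DN.UNI
import Pool.Agent.Work.MP_b51559_nt.DN.WB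

set_option autoImplicit false

/-!
# Block DN: the uniform theorem without hypotheses
-/

namespace MPb51559.DN

theorem all_CB : D_CB := prf_CB prf_CRT prf_PER

theorem all_PRO : D_PRO := prf_PRO (prf_PAIR (prf_C2 prf_CRT prf_PER)) all_CB prf_WB

theorem all_MEAN : D_MEAN := prf_MEAN prf_PER prf_WB prf_G210 prf_TAU (prf_RAN prf_TAU)
  (prf_M1 prf_CRT) (prf_M2 prf_CRT) (prf_M3 prf_TAU)

theorem all_DEN : D_DEN := prf_DEN prf_TRU all_MEAN prf_TAU

theorem all_KEY : D_KEY := prf_KEY (prf_SEP all_PRO prf_TUR prf_AVG) all_DEN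

theorem all_UNI : D_UNI := prf_UNI all_KEY prf_COVER

end MPb51559.DN
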