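import Mathlib

set_option autoImplicit false

/-!
# Block DN: the lower density of the differences of consecutive primes, definitions

A set `P` such that every 49 integers prime to all primes up to 47 have a difference in `P` has
lower density at least 1/211.
-/

namespace MPb51559.DN

open Finset
open scoped Classical

/-- the fifteen primes up to 47 -/
def pr : Finset ℕ := (range 50).filter Nat.Prime

/-- their product -/
def QQ : ℕ := ∏ p ∈ pr, p

theorem pr_eq : pr = {2, 3, 5, 7, 11, 13, 17, 19, 23, 29, 31, 37, 41, 43, 47} := by decide +kernel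

theorem QQ_eq : QQ = primorial 49 := rfl

/-- local weight -/
noncomputable def wl (p h : ℕ) : ℝ :=
  if p ∣ h then (p : ℝ) / (p - 1) else (p : ℝ) * (p - 2) / (p - 1) ^ 2

/-- the singular series of the pair `0, h`, restricted to the primes up to 47 -/
noncomputable def ww (h : ℕ) : ℝ := ∏ p ∈ pr, wl p h

/-- the density of the integers prime to `QQ` -/
noncomputable def dl : ℝ := ∏ p ∈ pr, (1 - 1 / (p : ℝ))

/-- the integers in [1, N] prime to `QQ` -/
def BB (N : ℕ) : Finset ℕ := (Icc 1 N).filter (fun b => b.Coprime QQ)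

/-- the elements of `P` in [1, N] -/
noncomputable def PP (P : Set ℕ) (N : ℕ) : Finset ℕ := (Icc 1 N).filter (fun h => h ∈ P)

/-- the weighted mean of `P` -/
noncomputable def WW (P : Set ℕ) (N : ℕ) : ℝ := (∑ h ∈ PP P N, ww h) / N

/-- 49 integers in [1, H] prime to `QQ` have a difference in `P` -/
def DefD (P : Set ℕ) (H : ℕ) : Prop :=
  ∀ K ⊆ BB H, K.card = 49 → ∃ a ∈ K, ∃ b ∈ K, a < b ∧ b - a ∈ P

/-- the relation: equal, or the difference is in `P` -/
def RR (P : Set ℕ) (a b : ℕ) : Prop := a = b ∨ (a < b ∧ b - a ∈ P) ∨ (b < a ∧ a - b ∈ P)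

/-- the minimum of the weight on the multiples of 210 -/
noncomputable def tau : ℝ :=
  (∏ p ∈ pr.filter (fun p => p ≤ 7), (p : ℝ) / (p - 1)) *
    ∏ p ∈ pr.filter (fun p => ¬ p ≤ 7), (p : ℝ) * (p - 2) / (p - 1) ^ 2

/-- the constant of the Rankin inequality -/
noncomputable def cR : ℝ := (35 : ℝ) ^ 35 / (36 : ℝ) ^ 36 / tau ^ 35

/-- the interface with the sieve side (helper76): the same as `DefD` -/
def DefP (P : Set ℕ) (H : ℕ) : Prop := ∀ K : Finset ℕ, K.card = 49 →
  (∀ b ∈ K, 1 ≤ b ∧ b ≤ H ∧ Nat.Coprime b (primorial 49)) → ∃ a ∈ K, ∃ b ∈ K, a < b ∧ b - a ∈ P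

end MPb51559.DN
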